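import Pool.Agent.H669.FA.BackForth
import Pool.Graph.R_pool_sql_team_seeded_3997aac3.Q202.Ryll

set_option autoImplicit false

/-!
# Finite axiomatizability from the star property
-/

namespace Pool.Agent.H669.FA

open FirstOrder FirstOrder.Language

/-- The back-and-forth system preserves all formulas of the language of orders. -/
theorem realize_iff {A N : Type} [PartialOrder A] [Language.order.Structure A]
    [Language.order.OrderedStructure A] [Language.order.Structure N] [Nonempty N] {R : ℕ}
    {Tw : (Fin R → A) → (Fin R → N) → Prop} (hT : TwSys A N R Tw) {k : ℕ}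
    (hs : Star (⊤ : Setoid A) k) (hk : 1 ≤ k) (hR : 2 * k + 2 ≤ R)
    (hrel : ∀ a a', Tw a a' → ∀ i j, (a i ≤ a j ↔
      Structure.RelMap (leSymb : Language.order.Relations 2) ![a' i, a' j]))
    {n : ℕ} (φ : Language.order.BoundedFormula Empty n) :
    ∀ (a : Fin n → A) (a' : Fin n → N), BB Tw (k + 1) a a' →
      (φ.Realize (default : Empty → A) a ↔ φ.Realize (default : Empty → N) a') := by
  classical
  -- pairs are controlled
  have hpair : ∀ {n : ℕ} (a : Fin n → A) (a' : Fin n → N), BB Tw (k + 1) a a' → ∀ i j : Fin n,
      ((a i = a j ↔ a' i = a' j) ∧ (a i ≤ a j ↔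
        Structure.RelMap (leSymb : Language.order.Relations 2) ![a' i, a' j])) := by
    intro n a a' hB i j
    have h1 := hB {i, j} (Finset.card_le_two.trans (by omega))
      (fun l => if (l : ℕ) = 0 then i else j) (by
        intro l
        split_ifs <;> simp)
    have h2 := hT.eqv _ _ h1 ⟨0, by omega⟩ ⟨1, by omega⟩
    have h3 := hrel _ _ h1 ⟨0, by omega⟩ ⟨1, by omega⟩
    simp at h2 h3
    exact ⟨h2, h3⟩
  induction φ with
  | falsum => intro a a' _; exact Iff.rfl
  | @equal n t1 t2 =>
    intro a a' hB
    rcases t1 with (e | i) | ⟨f, _⟩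
    · exact e.elim
    · rcases t2 with (e | j) | ⟨f, _⟩
      · exact e.elim
      · exact (hpair a a' hB i j).1
      · exact (IsEmpty.false f).elim
    · exact (IsEmpty.false f).elim
  | @rel n l S ts =>
    intro a a' hB
    cases S
    have h0 : ∀ t : Language.order.Term (Empty ⊕ Fin n), ∃ i, t = Term.var (Sum.inr i) := by
      intro t
      rcases t with (e | i) | ⟨f, _⟩
      · exact e.elim
      · exact ⟨i, rfl⟩
      · exact (IsEmpty.false f).elim
    obtain ⟨i, hi⟩ := h0 (ts 0)
    obtain ⟨j, hj⟩ := h0 (ts 1)
    have h1 := (hpair a a' hB i j).2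
    change ((BoundedFormula.rel (leSymb : Language.order.Relations 2) ts :
        Language.order.BoundedFormula Empty n).Realize (default : Empty → A) a ↔
      (BoundedFormula.rel (leSymb : Language.order.Relations 2) ts :
        Language.order.BoundedFormula Empty n).Realize (default : Empty → N) a')
    have e1 : (BoundedFormula.rel (leSymb : Language.order.Relations 2) ts :
        Language.order.BoundedFormula Empty n).Realize
        (default : Empty → A) a ↔ a i ≤ a j := by
      show Structure.RelMap (leSymb : Language.order.Relations 2)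
        (fun i => (ts i).realize (Sum.elim (default : Empty → A) a)) ↔ _
      have : (fun i => (ts i).realize (Sum.elim (default : Empty → A) a)) = ![a i, a j] := by
        funext l
        fin_cases l
        · show (ts 0).realize _ = _
          rw [hi]; rfl
        · show (ts 1).realize _ = _
          rw [hj]; rfl
      rw [this]
      exact relMap_leSymb ![a i, a j]
    have e2 : (BoundedFormula.rel (leSymb : Language.order.Relations 2) ts :
        Language.order.BoundedFormula Empty n).Realize
        (default : Empty → N) a' ↔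
        Structure.RelMap (leSymb : Language.order.Relations 2) ![a' i, a' j] := by
      show Structure.RelMap (leSymb : Language.order.Relations 2)
        (fun i => (ts i).realize (Sum.elim (default : Empty → N) a')) ↔ _
      have : (fun i => (ts i).realize (Sum.elim (default : Empty → N) a')) = ![a' i, a' j] := by
        funext l
        fin_cases l
        · show (ts 0).realize _ = _
          rw [hi]; rfl
        · show (ts 1).realize _ = _
          rw [hj]; rfl
      rw [this]
    rw [e1, e2]
    exact h1
  | imp _ _ ih1 ih2 =>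
    intro a a' hB
    rw [BoundedFormula.realize_imp, BoundedFormula.realize_imp, ih1 a a' hB, ih2 a a' hB]
  | @all n φ ih =>
    intro a a' hB
    rw [BoundedFormula.realize_all, BoundedFormula.realize_all]
    have hsn : ∀ {X : Type} (c : Fin n → X) (x : X),
        (Fin.snoc c x : Fin (n + 1) → X) = (ex c x) ∘ (Fin.snoc (fun i => some i) none : Fin (n + 1) → Option (Fin n)) := by
      intro X c x
      rw [Fin.comp_snoc]
      rfl
    constructor
    · intro h b'
      obtain ⟨b, hb⟩ := back hT hs hR hB b'
      have := h b
      rw [hsn] at this ⊢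
      exact (ih _ _ (hb.reindex _)).1 this
    · intro h b
      obtain ⟨b', hb⟩ := forth hT hs hR hB b
      have := h b'
      rw [hsn] at this ⊢
      exact (ih _ _ (hb.reindex _)).2 this

section

variable {L : FirstOrder.Language.{0, 0}}

/-- universal closure. -/
noncomputable def allF {R : ℕ} (φ : L.Formula (Fin R)) : L.Sentence :=
  Formula.iAlls (Fin R) (φ.relabel (Sum.inr : Fin R → Empty ⊕ Fin R))

theorem realize_allF {R : ℕ} (φ : L.Formula (Fin R)) (N : Type) [L.Structure N] :
    N ⊨ allF φ ↔ ∀ a : Fin R → N, φ.Realize a := by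
  unfold allF Sentence.Realize
  rw [Formula.realize_iAlls]
  apply forall_congr'
  intro a
  rw [Formula.realize_relabel]
  rfl

/-- quantifying out one variable. -/
noncomputable def exF {R : ℕ} (i : Fin R) (φ : L.Formula (Fin R)) : L.Formula (Fin R) :=
  Formula.iExs Unit (φ.relabel (fun j => if j = i then Sum.inr () else Sum.inl j))

theorem realize_exF {R : ℕ} (i : Fin R) (φ : L.Formula (Fin R)) (N : Type) [L.Structure N]
    (a : Fin R → N) : (exF i φ).Realize a ↔ ∃ b, φ.Realize (Function.update a i b) := by
  unfold exF
  rw [Formula.realize_iExs]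
  have key : ∀ z : Unit → N, (fun c : Fin R ⊕ Unit => Sum.elim a z c) ∘
      (fun j => if j = i then Sum.inr () else Sum.inl j) = Function.update a i (z ()) := by
    intro z
    funext j
    by_cases hj : j = i
    · subst hj; simp
    · simp [hj]
  constructor
  · rintro ⟨z, hz⟩
    rw [Formula.realize_relabel, key] at hz
    exact ⟨_, hz⟩
  · rintro ⟨b, hb⟩
    refine ⟨fun _ => b, ?_⟩
    rw [Formula.realize_relabel, key]
    exact hb

end

/-- **Finite axiomatizability** for countable infinite omega-categorical orders with the star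
property. -/
theorem fa_of_star (A : Type) [PartialOrder A] [Language.order.Structure A]
    [Language.order.OrderedStructure A] [Countable A] [Infinite A]
    (hcat : Q202.Ryll.OmegaCat Language.order A) {k : ℕ} (hs : Star (⊤ : Setoid A) k) :
    ∃ T0 : Finset Language.order.Sentence,
      (↑T0 : Set Language.order.Sentence) ⊆ Language.order.completeTheory A ∧
      ∀ (N : Type) [Language.order.Structure N] [Nonempty N],
        N ⊨ (↑T0 : Language.order.Theory) → ∀ φ : Language.order.Sentence, A ⊨ φ ↔ N ⊨ φ := by
  classical
  -- normalise `k`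
  obtain ⟨k, hk1, hs⟩ : ∃ k', 1 ≤ k' ∧ Star (⊤ : Setoid A) k' :=
    ⟨k + 1, by omega, fun b => (hs b).mono (Nat.le_succ k)⟩
  let R : ℕ := 2 * k + 2
  obtain ⟨s, hsf, hscov⟩ := Q202.Ryll.finite_orbits hcat (Fin R)
  have hsfin : Finite s := hsf
  choose θ hθ using fun x : s => Q202.Ryll.exists_isolates hcat (x : Fin R → A)
  have hcov : ∀ y : Fin R → A, ∃ x : s, (θ x).Realize y := by
    intro y
    obtain ⟨x, hx, g, hg⟩ := hscov y
    refine ⟨⟨x, hx⟩, ?_⟩
    have h1 := (hθ ⟨x, hx⟩).1
    have h2 := (StrongHomClass.realize_formula g (θ ⟨x, hx⟩) (v := x)).2 h1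
    have h3 : (g ∘ x) = y := funext hg
    rwa [h3] at h2
  -- the finite set of formulas
  let le (i j : Fin R) : Language.order.Formula (Fin R) :=
    (leSymb : Language.order.Relations 2).formula₂ (Term.var i) (Term.var j)
  let eq (i j : Fin R) : Language.order.Formula (Fin R) := Term.equal (Term.var i) (Term.var j)
  let Ψ : Set (Language.order.Formula (Fin R)) :=
    (Set.range (fun p : s × (Fin R → Fin R) => (θ p.1).relabel p.2)) ∪
    (Set.range (fun p : s × Fin R => exF p.2 (θ p.1))) ∪
    (Set.range (fun x : s => Formula.not (θ x))) ∪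
    (Set.range (fun p : Fin R × Fin R => le p.1 p.2)) ∪
    (Set.range (fun p : Fin R × Fin R => Formula.not (le p.1 p.2))) ∪
    (Set.range (fun p : Fin R × Fin R => eq p.1 p.2)) ∪
    (Set.range (fun p : Fin R × Fin R => Formula.not (eq p.1 p.2)))
  have hΨf : Ψ.Finite := by
    refine ((((((Set.finite_range _).union (Set.finite_range _)).union
      (Set.finite_range _)).union (Set.finite_range _)).union (Set.finite_range _)).union
      (Set.finite_range _)).union (Set.finite_range _)
  let σ : Language.order.Sentence := allF (BoundedFormula.iSup (fun x : s => θ x))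
  let T : Set Language.order.Sentence :=
    {σ} ∪ ((fun p : s × Language.order.Formula (Fin R) => allF ((θ p.1).imp p.2)) ''
      {p | p.2 ∈ Ψ ∧ p.2.Realize (p.1 : Fin R → A)})
  have hTf : T.Finite := by
    apply (Set.finite_singleton _).union
    apply Set.Finite.image
    apply ((Set.finite_univ (α := s)).prod hΨf).subset
    rintro ⟨x, ψ⟩ ⟨h1, _⟩
    exact ⟨Set.mem_univ _, h1⟩
  have hσ : ∀ (N : Type) [Language.order.Structure N], N ⊨ σ ↔
      ∀ a : Fin R → N, ∃ x : s, (θ x).Realize a := by
    intro N _
    rw [realize_allF]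
    apply forall_congr'
    intro a
    exact BoundedFormula.realize_iSup
  refine ⟨hTf.toFinset, ?_, ?_⟩
  · intro φ hφ
    rw [Set.Finite.coe_toFinset] at hφ
    show A ⊨ φ
    rcases hφ with hφ | ⟨⟨x, ψ⟩, ⟨_, h2⟩, rfl⟩
    · rw [Set.mem_singleton_iff] at hφ
      rw [hφ, hσ]
      exact hcov
    · dsimp only
      rw [realize_allF]
      intro a
      rw [Formula.realize_imp]
      intro h3
      exact ((hθ x).2 a h3 ψ).1 h2
  · intro N _ _ hN φ
    have hNσ : ∀ a : Fin R → N, ∃ x : s, (θ x).Realize a := by
      rw [← hσ]
      exact (Theory.model_iff _).1 hN σ (by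
        rw [Set.Finite.coe_toFinset]
        exact Or.inl rfl)
    have htrans : ∀ (x : s) (ψ : Language.order.Formula (Fin R)), ψ ∈ Ψ →
        ψ.Realize (x : Fin R → A) → ∀ a' : Fin R → N, (θ x).Realize a' → ψ.Realize a' := by
      intro x ψ hψ hx a' ha'
      have h1 : N ⊨ allF ((θ x).imp ψ) := (Theory.model_iff _).1 hN _ (by
        rw [Set.Finite.coe_toFinset]
        exact Or.inr ⟨(x, ψ), ⟨hψ, hx⟩, rfl⟩)
      rw [realize_allF] at h1
      exact (Formula.realize_imp.1 (h1 a')) ha'
    let Tw : (Fin R → A) → (Fin R → N) → Prop := fun a a' =>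
      ∃ x : s, (θ x).Realize a ∧ (θ x).Realize a'
    have htw : ∀ a a', Tw a a' → ∀ ψ ∈ Ψ, ψ.Realize a → ψ.Realize a' := by
      rintro a a' ⟨x, h1, h2⟩ ψ hψ h3
      exact htrans x ψ hψ (((hθ x).2 a h1 ψ).2 h3) a' h2
    have hle : ∀ (i j : Fin R) (X : Type) [Language.order.Structure X] (a : Fin R → X),
        (le i j).Realize a ↔ Structure.RelMap (leSymb : Language.order.Relations 2) ![a i, a j] := by
      intro i j X _ a
      exact Formula.realize_rel₂
    have heq : ∀ (i j : Fin R) (X : Type) [Language.order.Structure X] (a : Fin R → X),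
        (eq i j).Realize a ↔ a i = a j := by
      intro i j X _ a
      exact Formula.realize_equal
    have hTS : TwSys A N R Tw := by
      refine ⟨?_, ?_, ?_, ?_, ?_, ?_⟩
      · intro a'
        obtain ⟨x, hx⟩ := hNσ a'
        exact ⟨x, x, (hθ x).1, hx⟩
      · intro a a' h f
        obtain ⟨y, hy⟩ := hcov (a ∘ f)
        refine ⟨y, hy, ?_⟩
        have h1 : ((θ y).relabel f) ∈ Ψ := by
          simp only [Ψ, Set.mem_union, Set.mem_range]
          exact Or.inl (Or.inl (Or.inl (Or.inl (Or.inl (Or.inl ⟨(y, f), rfl⟩)))))
        have h2 := htw a a' h _ h1 (by rw [Formula.realize_relabel]; exact hy)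
        rwa [Formula.realize_relabel] at h2
      · intro a a' h i b
        obtain ⟨y, hy⟩ := hcov (Function.update a i b)
        have h1 : exF i (θ y) ∈ Ψ := by
          simp only [Ψ, Set.mem_union, Set.mem_range]
          exact Or.inl (Or.inl (Or.inl (Or.inl (Or.inl (Or.inr ⟨(y, i), rfl⟩)))))
        have h2 := htw a a' h _ h1 (by rw [realize_exF]; exact ⟨b, hy⟩)
        rw [realize_exF] at h2
        obtain ⟨b', hb'⟩ := h2
        exact ⟨b', y, hy, hb'⟩
      · rintro a b a' ⟨x, h1, h2⟩ ⟨y, h3, h4⟩
        have h5 : (θ y).Realize a := by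
          by_contra hc
          have h6 : Formula.not (θ y) ∈ Ψ := by
            simp only [Ψ, Set.mem_union, Set.mem_range]
            exact Or.inl (Or.inl (Or.inl (Or.inl (Or.inr ⟨y, rfl⟩))))
          have h7 := htw a a' ⟨x, h1, h2⟩ _ h6 (by rw [Formula.realize_not]; exact hc)
          rw [Formula.realize_not] at h7
          exact h7 h4
        obtain ⟨g, hg⟩ := Q202.Ryll.exists_aut hcat a b (fun χ =>
          (((hθ y).2 a h5 χ).symm).trans ((hθ y).2 b h3 χ))
        refine ⟨⟨g.toEquiv, ?_⟩, hg⟩
        intro p q
        have h8 := g.map_rel (leSymb : Language.order.Relations 2) ![p, q]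
        rw [relMap_leSymb, relMap_leSymb] at h8
        exact h8
      · rintro a a' ⟨x, h1, h2⟩ g
        refine ⟨x, ?_, h2⟩
        let g' : A ≃[Language.order] A := ⟨g.toEquiv, fun f => (IsEmpty.false f).elim, by
          intro n S xs
          cases S
          change Structure.RelMap (leSymb : Language.order.Relations 2) (g.toEquiv ∘ xs) ↔
            Structure.RelMap (leSymb : Language.order.Relations 2) xs
          rw [relMap_leSymb, relMap_leSymb]
          exact g.le_iff_le⟩
        exact (StrongHomClass.realize_formula g' (θ x) (v := a)).2 h1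
      · intro a a' h i j
        constructor
        · intro hij
          have h1 : eq i j ∈ Ψ := by
            simp only [Ψ, Set.mem_union, Set.mem_range]
            exact Or.inl (Or.inr ⟨(i, j), rfl⟩)
          exact (heq i j N a').1 (htw a a' h _ h1 ((heq i j A a).2 hij))
        · intro hij
          by_contra hc
          have h1 : Formula.not (eq i j) ∈ Ψ := by
            simp only [Ψ, Set.mem_union, Set.mem_range]
            exact Or.inr ⟨(i, j), rfl⟩
          have h2 := htw a a' h _ h1 (by rw [Formula.realize_not, heq]; exact hc)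
          rw [Formula.realize_not, heq] at h2
          exact h2 hij
    have hrel : ∀ a a', Tw a a' → ∀ i j, (a i ≤ a j ↔
        Structure.RelMap (leSymb : Language.order.Relations 2) ![a' i, a' j]) := by
      intro a a' h i j
      have h0 : (le i j).Realize a ↔ a i ≤ a j := by
        rw [hle]
        exact relMap_leSymb ![a i, a j]
      constructor
      · intro hij
        have h1 : le i j ∈ Ψ := by
          simp only [Ψ, Set.mem_union, Set.mem_range]
          exact Or.inl (Or.inl (Or.inl (Or.inr ⟨(i, j), rfl⟩)))
        exact (hle i j N a').1 (htw a a' h _ h1 (h0.2 hij))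
      · intro hij
        by_contra hc
        have h1 : Formula.not (le i j) ∈ Ψ := by
          simp only [Ψ, Set.mem_union, Set.mem_range]
          exact Or.inl (Or.inl (Or.inr ⟨(i, j), rfl⟩))
        have h2 := htw a a' h _ h1 (by rw [Formula.realize_not, h0]; exact hc)
        rw [Formula.realize_not, hle] at h2
        exact h2 hij
    have hB : BB Tw (k + 1) (default : Fin 0 → A) (default : Fin 0 → N) := by
      intro J _ f _
      exact (f ⟨0, by omega⟩).elim0
    exact realize_iff hTS hs hk1 (le_refl R) hrel φ default default hB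

end Pool.Agent.H669.FA
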