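import Pool.Agent.H669.FA.Induct

set_option autoImplicit false

/-!
# Back-and-forth from types of bounded arity
-/

namespace Pool.Agent.H669.FA

/-- A system of twins between tuples of length `R` of `A` and of `N`. -/
structure TwSys (A N : Type*) [PartialOrder A] (R : ℕ) (Tw : (Fin R → A) → (Fin R → N) → Prop) :
    Prop where
  twin : ∀ a', ∃ a, Tw a a'
  comp : ∀ a a', Tw a a' → ∀ f : Fin R → Fin R, Tw (a ∘ f) (a' ∘ f)
  ext : ∀ a a', Tw a a' → ∀ i b, ∃ b', Tw (Function.update a i b) (Function.update a' i b')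
  uniq : ∀ a b a', Tw a a' → Tw b a' → ∃ g : A ≃o A, ∀ i, g (a i) = b i
  aut : ∀ a a', Tw a a' → ∀ g : A ≃o A, Tw (g ∘ a) a'
  eqv : ∀ a a', Tw a a' → ∀ i j, (a i = a j ↔ a' i = a' j)

variable {A N : Type*} [PartialOrder A] {R : ℕ} {Tw : (Fin R → A) → (Fin R → N) → Prop}

/-- twins on all tuples with indices in `J`. -/
def QQ {ι : Type*} (Tw : (Fin R → A) → (Fin R → N) → Prop) (a : ι → A) (a' : ι → N)
    (J : Finset ι) : Prop :=
  ∀ f : Fin R → ι, (∀ i, f i ∈ J) → Tw (a ∘ f) (a' ∘ f)

/-- twins on all tuples with at most `m` different indices. -/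
def BB {ι : Type*} (Tw : (Fin R → A) → (Fin R → N) → Prop) (m : ℕ) (a : ι → A)
    (a' : ι → N) : Prop :=
  ∀ J : Finset ι, J.card ≤ m → QQ Tw a a' J

omit [PartialOrder A] in
theorem QQ.mono {ι : Type*} {a : ι → A} {a' : ι → N} {I J : Finset ι} (h : QQ Tw a a' J)
    (hIJ : I ⊆ J) : QQ Tw a a' I := fun f hf => h f (fun i => hIJ (hf i))

omit [PartialOrder A] in
theorem QQ.congr {ι : Type*} {a b : ι → A} {a' : ι → N} {J : Finset ι} (h : QQ Tw a a' J)
    (hab : ∀ j ∈ J, a j = b j) : QQ Tw b a' J := by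
  intro f hf
  have : b ∘ f = a ∘ f := by
    funext i
    exact (hab _ (hf i)).symm
  rw [this]
  exact h f hf

omit [PartialOrder A] in
theorem BB.reindex {ι κ : Type*} [DecidableEq ι] {m : ℕ} {a : ι → A} {a' : ι → N}
    (h : BB Tw m a a') (σ : κ → ι) : BB Tw m (a ∘ σ) (a' ∘ σ) := by
  intro J hJ f hf
  exact h (J.image σ) (Finset.card_image_le.trans hJ) (σ ∘ f)
    (fun i => Finset.mem_image_of_mem σ (hf i))

/-- a surjection from `Fin R` onto a nonempty set with at most `R` elements. -/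
theorem exists_surj {ι : Type*} [DecidableEq ι] (J : Finset ι) (hJ : J.Nonempty)
    (hc : J.card ≤ R) : ∃ f : Fin R → ι, (∀ i, f i ∈ J) ∧ ∀ j ∈ J, ∃ i, f i = j := by
  classical
  obtain ⟨j0, hj0⟩ := hJ
  refine ⟨fun i => if h : (i : ℕ) < J.card then (J.equivFin.symm ⟨i, h⟩ : ι) else j0, ?_, ?_⟩
  · intro i
    dsimp only
    split_ifs with h
    · exact (J.equivFin.symm ⟨i, h⟩).2
    · exact hj0
  · intro j hj
    let i := J.equivFin ⟨j, hj⟩
    refine ⟨⟨i.1, i.2.trans_le hc⟩, ?_⟩
    dsimp only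
    rw [dif_pos i.2]
    have : (⟨i.1, i.2⟩ : Fin J.card) = J.equivFin ⟨j, hj⟩ := rfl
    rw [this, Equiv.symm_apply_apply]

theorem QQ_of_surj (hT : TwSys A N R Tw) {ι : Type*} {u : ι → A} {u' : ι → N} {J : Finset ι}
    {f : Fin R → ι} (hf : ∀ j ∈ J, ∃ i, f i = j) (h : Tw (u ∘ f) (u' ∘ f)) : QQ Tw u u' J := by
  intro g hg
  choose σ hσ using fun i => hf _ (hg i)
  have := hT.comp _ _ h σ
  have e1 : (u ∘ f) ∘ σ = u ∘ g := by funext i; simp [hσ]
  have e2 : (u' ∘ f) ∘ σ = u' ∘ g := by funext i; simp [hσ]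
  rwa [e1, e2] at this

/-- extended tuple. -/
def ex {ι : Type*} {X : Type*} (a : ι → X) (b : X) : Option ι → X := fun o => o.elim b a

theorem ex_comp_getD {R : ℕ} {ι : Type*} {X : Type*} (f : Fin R → Option ι) (i1 : Fin R)
    (hi1 : f i1 = none) (d0 : ι) (c : ι → X) (x : X) : (ex c x) ∘ f =
      Function.update (c ∘ (fun i => (f i).getD d0)) i1 x ∘ (fun i => if f i = none then i1 else i) := by
  classical
  funext i
  by_cases hi : f i = none
  · simp [ex, hi]
  · have hne : i ≠ i1 := fun hc => hi (hc ▸ hi1)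
    obtain ⟨j, hj⟩ := Option.ne_none_iff_exists'.1 hi
    simp only [Function.comp, hi, if_false, Function.update_of_ne hne]
    simp [ex, hj]

theorem ex_comp_some {R : ℕ} {ι : Type*} {X : Type*} (f : Fin R → Option ι) (f' : Fin R → ι)
    (hf' : ∀ i, f i = some (f' i)) (c : ι → X) (x : X) : (ex c x) ∘ f = c ∘ f' := by
  funext i
  simp [ex, hf']

variable {k : ℕ}

/-- existence of twins for the new element over small sets. -/
theorem lemW (hT : TwSys A N R Tw) (hs : Star (⊤ : Setoid A) k) (hkR : k + 1 ≤ R) {ι : Type*}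
    [DecidableEq ι] {a : ι → A} {a' : ι → N} (hB : BB Tw (k + 1) a a') (J : Finset ι)
    (hJ : J.card + 1 ≤ R) (b' : N) :
    ∃ b, QQ Tw (ex a b) (ex a' b') (Finset.insertNone J) := by
  classical
  obtain ⟨f, hf1, hf2⟩ := exists_surj (R := R) (Finset.insertNone J) ⟨none, by simp⟩
    (by simpa using hJ)
  obtain ⟨t, ht⟩ := hT.twin (ex a' b' ∘ f)
  have hfac : Function.FactorsThrough t f := by
    intro i j hij
    exact (hT.eqv _ _ ht i j).2 (by simp [hij])
  let i0 : Fin R := ⟨0, by omega⟩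
  let u : Option ι → A := Function.extend f t (fun _ => t i0)
  have hu : t = u ∘ f := by
    funext i
    show t i = Function.extend f t (fun _ => t i0) (f i)
    exact (hfac.extend_apply (fun _ => t i0) i).symm
  rw [hu] at ht
  have hQ : QQ Tw u (ex a' b') (Finset.insertNone J) := QQ_of_surj hT hf2 ht
  have htop : ∀ g : A ≃o A, Nm (⊤ : Setoid A) g := fun g x => trivial
  obtain ⟨g, _, hg⟩ := arity hs (fun j => u (some j)) a J (by
    intro c hc hk
    rcases c.eq_empty_or_nonempty with rfl | hne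
    · exact ⟨OrderIso.refl A, htop _, by simp⟩
    · obtain ⟨fc, hfc1, hfc2⟩ := exists_surj (R := R) c hne (hk.trans hkR)
      have h1 : Tw ((fun j => u (some j)) ∘ fc) (a' ∘ fc) :=
        hQ (fun i => some (fc i)) (fun i => by
          rw [Finset.some_mem_insertNone]; exact hc (hfc1 i))
      have h2 : Tw (a ∘ fc) (a' ∘ fc) := hB c hk fc hfc1
      obtain ⟨g, hg⟩ := hT.uniq _ _ _ h1 h2
      refine ⟨g, htop _, ?_⟩
      intro j hj
      obtain ⟨i, rfl⟩ := hfc2 j hj
      exact hg i)
  refine ⟨g (u none), ?_⟩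
  have h3 : QQ Tw (g ∘ u) (ex a' b') (Finset.insertNone J) := by
    intro f' hf'
    exact hT.aut _ _ (hQ f' hf') g
  apply h3.congr
  intro o ho
  cases o with
  | none => rfl
  | some j =>
    rw [Finset.some_mem_insertNone] at ho
    exact hg j ho

theorem lemO (hT : TwSys A N R Tw) {ι : Type*} [DecidableEq ι] {a : ι → A} {a' : ι → N}
    {J : Finset ι} (hJ : J.card + 1 ≤ R) {b b1 : A} {b' : N}
    (h : QQ Tw (ex a b) (ex a' b') (Finset.insertNone J))
    (h1 : QQ Tw (ex a b1) (ex a' b') (Finset.insertNone J)) :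
    ∃ g : A ≃o A, (∀ j ∈ J, g (a j) = a j) ∧ g b = b1 := by
  obtain ⟨f, hf1, hf2⟩ := exists_surj (R := R) (Finset.insertNone J) ⟨none, by simp⟩
    (by simpa using hJ)
  obtain ⟨g, hg⟩ := hT.uniq _ _ _ (h f hf1) (h1 f hf1)
  refine ⟨g, ?_, ?_⟩
  · intro j hj
    obtain ⟨i, hi⟩ := hf2 (some j) (by rw [Finset.some_mem_insertNone]; exact hj)
    have := hg i
    simp only [Function.comp, hi] at this
    exact this
  · obtain ⟨i, hi⟩ := hf2 none (by simp)
    have := hg i
    simp only [Function.comp, hi] at this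
    exact this

theorem lemO' (hT : TwSys A N R Tw) {ι : Type*} [DecidableEq ι] {a : ι → A} {a' : ι → N}
    {J : Finset ι} {b : A} {b' : N}
    (h : QQ Tw (ex a b) (ex a' b') (Finset.insertNone J)) (g : A ≃o A)
    (hg : ∀ j ∈ J, g (a j) = a j) :
    QQ Tw (ex a (g b)) (ex a' b') (Finset.insertNone J) := by
  have h3 : QQ Tw (g ∘ (ex a b)) (ex a' b') (Finset.insertNone J) := by
    intro f' hf'
    exact hT.aut _ _ (h f' hf') g
  apply h3.congr
  intro o ho
  cases o with
  | none => rfl
  | some j =>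
    rw [Finset.some_mem_insertNone] at ho
    exact hg j ho

theorem lemExt (hT : TwSys A N R Tw) (hR : 0 < R) [Nonempty N] {ι : Type*} [DecidableEq ι]
    {a : ι → A} {a' : ι → N} {m : ℕ} (hB : BB Tw m a a') (D : Finset ι) (hD : D.card ≤ m)
    (hDR : D.card + 1 ≤ R) (b : A) :
    ∃ b', QQ Tw (ex a b) (ex a' b') (Finset.insertNone D) := by
  classical
  let i0 : Fin R := ⟨0, hR⟩
  rcases D.eq_empty_or_nonempty with rfl | hne
  · obtain ⟨t, ht⟩ := hT.twin (fun _ => Classical.arbitrary N)
    obtain ⟨b', hb'⟩ := hT.ext _ _ ht i0 b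
    have h1 := hT.comp _ _ hb' (fun _ => i0)
    refine ⟨b', ?_⟩
    intro f hf
    have hf' : f = fun _ => none := by
      funext i
      have := hf i
      rcases ho : f i with _ | j
      · rfl
      · rw [ho, Finset.some_mem_insertNone] at this
        exact absurd this (Finset.notMem_empty _)
    rw [hf']
    have e1 : (ex a b) ∘ (fun _ => none) = Function.update t i0 b ∘ (fun _ : Fin R => i0) := by
      funext i
      simp [ex]
    have e2 : (ex a' b') ∘ (fun _ => none) =
        Function.update (fun _ => Classical.arbitrary N) i0 b' ∘ (fun _ : Fin R => i0) := by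
      funext i
      simp [ex]
    rw [e1, e2]
    exact h1
  · obtain ⟨d0, hd0⟩ := hne
    obtain ⟨f, hf1, hf2⟩ := exists_surj (R := R) (Finset.insertNone D) ⟨none, by simp⟩
      (by simpa using hDR)
    obtain ⟨i1, hi1⟩ := hf2 none (by simp)
    let f' : Fin R → ι := fun i => (f i).getD d0
    have hf' : ∀ i, f' i ∈ D := by
      intro i
      have h2 := hf1 i
      show (f i).getD d0 ∈ D
      rcases ho : f i with _ | j
      · exact hd0
      · rw [ho, Finset.some_mem_insertNone] at h2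
        exact h2
    obtain ⟨b', hb'⟩ := hT.ext _ _ (hB D hD f' hf') i1 b
    have h1 := hT.comp _ _ hb' (fun i => if f i = none then i1 else i)
    refine ⟨b', QQ_of_surj hT hf2 ?_⟩
    rw [ex_comp_getD f i1 hi1 d0 a b, ex_comp_getD f i1 hi1 d0 a' b']
    exact h1

/-- the indices of a set of optional indices. -/
theorem card_filterSome {ι : Type*} [DecidableEq ι] [Fintype ι] (J : Finset (Option ι)) {m : ℕ}
    (hJ : J.card ≤ m + 1) (hn : none ∈ J) : ∃ I : Finset ι, I.card ≤ m ∧ J = Finset.insertNone I := by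
  classical
  refine ⟨Finset.univ.filter (fun i => some i ∈ J), ?_, ?_⟩
  · have h1 : J = Finset.insertNone (Finset.univ.filter (fun i => some i ∈ J)) := by
      ext o
      cases o with
      | none => simp [hn]
      | some j => simp
    rw [h1, Finset.card_insertNone] at hJ
    omega
  · ext o
    cases o with
    | none => simp [hn]
    | some j => simp

omit [PartialOrder A] in
theorem BB_ext {ι : Type*} [DecidableEq ι] [Fintype ι] {a : ι → A} {a' : ι → N}
    (hB : BB Tw (k + 1) a a') {b : A} {b' : N}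
    (h : ∀ I : Finset ι, I.card ≤ k → QQ Tw (ex a b) (ex a' b') (Finset.insertNone I)) :
    BB Tw (k + 1) (ex a b) (ex a' b') := by
  classical
  intro J hJ
  by_cases hn : none ∈ J
  · obtain ⟨I, hI, rfl⟩ := card_filterSome J hJ hn
    exact h I hI
  · intro f hf
    have hf' : ∀ i, ∃ j, f i = some j := by
      intro i
      rcases ho : f i with _ | j
      · exact absurd (ho ▸ hf i) hn
      · exact ⟨j, rfl⟩
    choose f' hf' using hf'
    rw [ex_comp_some f f' hf' a b, ex_comp_some f f' hf' a' b']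
    refine hB (Finset.univ.filter (fun i => some i ∈ J)) ?_ f' ?_
    · refine le_trans ?_ hJ
      apply Finset.card_le_card_of_injOn (fun i => some i)
      · intro i hi
        exact (Finset.mem_filter.1 hi).2
      · intro i _ j _ hij
        exact Option.some_injective _ hij
    · intro i
      rw [Finset.mem_filter]
      exact ⟨Finset.mem_univ _, hf' i ▸ hf i⟩

theorem forth (hT : TwSys A N R Tw) (hs : Star (⊤ : Setoid A) k) (hR : 2 * k + 2 ≤ R) [Nonempty N]
    {ι : Type*} [DecidableEq ι] [Fintype ι] {a : ι → A} {a' : ι → N}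
    (hB : BB Tw (k + 1) a a') (b : A) : ∃ b', BB Tw (k + 1) (ex a b) (ex a' b') := by
  classical
  obtain ⟨d, hd, hdk, hds⟩ := hs b (Finset.univ.image a)
  obtain ⟨D, hD1, hD2, hD3⟩ := exists_preimage_finset a Finset.univ d hd
  obtain ⟨b', hb'⟩ := lemExt hT (by omega) hB D (by omega) (by omega) b
  refine ⟨b', BB_ext hB ?_⟩
  intro I hI
  have hJc : (D ∪ I).card ≤ 2 * k := (Finset.card_union_le _ _).trans (by omega)
  obtain ⟨b2, hb2⟩ := lemW hT hs (by omega) hB (D ∪ I) (by omega) b'
  have hDJ : Finset.insertNone D ⊆ Finset.insertNone (D ∪ I) := by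
    intro o ho
    cases o with
    | none => simp
    | some j =>
      rw [Finset.some_mem_insertNone] at ho ⊢
      exact Finset.mem_union_left _ ho
  have hIJ : Finset.insertNone I ⊆ Finset.insertNone (D ∪ I) := by
    intro o ho
    cases o with
    | none => simp
    | some j =>
      rw [Finset.some_mem_insertNone] at ho ⊢
      exact Finset.mem_union_right _ ho
  obtain ⟨g, hg1, hg2⟩ := lemO hT (by omega) hb' (hb2.mono hDJ)
  obtain ⟨h', _, hC, hb⟩ := hds g (fun x => trivial) (by
    intro x hx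
    rw [← hD2] at hx
    obtain ⟨j, hj, rfl⟩ := Finset.mem_image.1 hx
    exact hg1 j hj)
  have h1 := lemO' hT hb2 h'.symm (by
    intro j _
    rw [OrderIso.symm_apply_eq]
    exact (hC _ (Finset.mem_image_of_mem a (Finset.mem_univ j))).symm)
  have h2 : h'.symm b2 = b := by
    rw [OrderIso.symm_apply_eq, hb, hg2]
  rw [h2] at h1
  exact h1.mono hIJ

/-- a finite directed family has a least element. -/
theorem exists_least {ι α : Type*} (S : Finset ι) (P : ι → Prop) (B : ι → Set α) (hP : ∃ i, P i)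
    (hS : ∀ i ∈ S, P i)
    (hdir : ∀ i j, P i → P j → ∃ l, P l ∧ B l ⊆ B i ∧ B l ⊆ B j) :
    ∃ l, P l ∧ ∀ i ∈ S, B l ⊆ B i := by
  classical
  induction S using Finset.induction_on with
  | empty => obtain ⟨i, hi⟩ := hP; exact ⟨i, hi, by simp⟩
  | insert i S _ ih =>
    obtain ⟨l, hl, hlS⟩ := ih (fun j hj => hS j (Finset.mem_insert_of_mem hj))
    obtain ⟨m, hm, h1, h2⟩ := hdir l i hl (hS i (Finset.mem_insert_self _ _))
    refine ⟨m, hm, ?_⟩
    intro j hj
    rcases Finset.mem_insert.1 hj with rfl | hj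
    · exact h2
    · exact h1.trans (hlS j hj)

theorem back (hT : TwSys A N R Tw) (hs : Star (⊤ : Setoid A) k) (hR : 2 * k + 2 ≤ R)
    {ι : Type*} [DecidableEq ι] [Fintype ι] {a : ι → A} {a' : ι → N}
    (hB : BB Tw (k + 1) a a') (b' : N) : ∃ b, BB Tw (k + 1) (ex a b) (ex a' b') := by
  classical
  obtain ⟨l, hl, hlS⟩ := exists_least
    ((Finset.univ : Finset (Finset ι)).filter (fun I => I.card ≤ k)) (fun I => I.card ≤ k)
    (fun I => {b | QQ Tw (ex a b) (ex a' b') (Finset.insertNone I)}) ⟨∅, by simp⟩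
    (fun I hI => (Finset.mem_filter.1 hI).2) (by
    intro I1 I2 h1 h2
    have hJc : (I1 ∪ I2).card ≤ 2 * k := (Finset.card_union_le _ _).trans (by omega)
    obtain ⟨b2, hb2⟩ := lemW hT hs (by omega) hB (I1 ∪ I2) (by omega) b'
    obtain ⟨d, hd, hdk, hds⟩ := hs b2 ((I1 ∪ I2).image a)
    obtain ⟨D, hD1, hD2, hD3⟩ := exists_preimage_finset a (I1 ∪ I2) d hd
    have hmono : ∀ I J : Finset ι, I ⊆ J → Finset.insertNone I ⊆ Finset.insertNone J := by
      intro I J hIJ o ho
      cases o with
      | none => simp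
      | some j =>
        rw [Finset.some_mem_insertNone] at ho ⊢
        exact hIJ ho
    have key : ∀ b, QQ Tw (ex a b) (ex a' b') (Finset.insertNone D) →
        QQ Tw (ex a b) (ex a' b') (Finset.insertNone (I1 ∪ I2)) := by
      intro b hb
      obtain ⟨g, hg1, hg2⟩ := lemO hT (by omega) (hb2.mono (hmono _ _ hD1)) hb
      obtain ⟨h', _, hC, hbb⟩ := hds g (fun x => trivial) (by
        intro x hx
        rw [← hD2] at hx
        obtain ⟨j, hj, rfl⟩ := Finset.mem_image.1 hx
        exact hg1 j hj)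
      have h1 := lemO' hT hb2 h' (by
        intro j hj
        exact hC _ (Finset.mem_image_of_mem a hj))
      rw [hbb, hg2] at h1
      exact h1
    refine ⟨D, by omega, ?_, ?_⟩
    · intro b hb
      exact (key b hb).mono (hmono _ _ Finset.subset_union_left)
    · intro b hb
      exact (key b hb).mono (hmono _ _ Finset.subset_union_right))
  obtain ⟨b, hb⟩ := lemW hT hs (by omega) hB l (by omega) b'
  refine ⟨b, BB_ext hB ?_⟩
  intro I hI
  exact hlS I (Finset.mem_filter.2 ⟨Finset.mem_univ _, hI⟩) hb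

end Pool.Agent.H669.FA
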