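import Pool.Agent.H669.FA.Pieces

set_option autoImplicit false

/-!
# Links between classes, closures, and the block relation
-/

namespace Pool.Agent.H669.FA

universe u

variable {M : Type u} [PartialOrder M]
variable {r R : Setoid M} {F : Finset (M × M)} {w : ℕ}

open Relation

theorem NoMax.class {p p' : M} (hp : R p p') (h : NoMax R p) : NoMax R p' := by
  intro x hx
  obtain ⟨y, hy, hxy⟩ := h x (R.trans hx (R.symm hp))
  exact ⟨y, R.trans hy hp, hxy⟩

theorem Ctx.noMax_of_infinite (h : Ctx r R F w) {p : M} (hp : {x | R x p}.Infinite) :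
    NoMax R p := by
  classical
  obtain ⟨T, hT, hTc⟩ := hp.exists_subset_card_eq (w + 1)
  have : ¬ IsAntichain (· ≤ ·) (T : Set M) := by
    intro hac
    have := h.wd T hac
    omega
  unfold IsAntichain Set.Pairwise at this
  push Not at this
  obtain ⟨a, ha, b, hb, hab, hle⟩ := this
  have hle' : a ≤ b := by
    by_contra hc
    exact hle hc
  have h1 : R a p := hT ha
  have h2 : R b p := hT hb
  exact (h.noMax_of_lt (R.trans h1 (R.symm h2)) (lt_of_le_of_ne hle' hab)).class h2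

theorem Ctx.singleton_of_finite (h : Ctx r R F w) {p : M} (hp : {x | R x p}.Finite) :
    ∀ y, R y p → y = p := by
  classical
  have := h.fin
  let S : Set M := {z | {x | R x z}.Finite}
  have hcl : ∀ z z' : M, R z z' → {x | R x z} = {x | R x z'} := by
    intro z z' hz
    ext x
    exact ⟨fun hx => R.trans hx hz, fun hx => R.trans hx (R.symm hz)⟩
  have hSf : S.Finite := by
    have : S ⊆ ⋃ q : Quotient R, (if {x | R x q.out}.Finite then {x | R x q.out} else ∅) := by
      intro z hz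
      rw [Set.mem_iUnion]
      refine ⟨Quotient.mk R z, ?_⟩
      have h1 : R z (Quotient.mk R z).out := R.symm (Quotient.mk_out z)
      have h2 : {x | R x (Quotient.mk R z).out}.Finite := by
        rw [← hcl _ _ h1]; exact hz
      rw [if_pos h2]
      exact h1
    apply Set.Finite.subset _ this
    apply Set.finite_iUnion
    intro q
    split_ifs with hq
    · exact hq
    · exact Set.finite_empty
  have key := h.fam ((fun z => ({z} : Set M)) '' S) (hSf.image _) (by
    rintro g hg _ ⟨z, hz, rfl⟩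
    refine ⟨g z, ?_, by simp⟩
    have h1 : {x | R x (g z)} = g '' {x | R x z} := by
      ext x
      constructor
      · intro hx
        refine ⟨g.symm x, ?_, g.apply_symm_apply x⟩
        show R (g.symm x) z
        rw [← h.inv g hg, g.apply_symm_apply]; exact hx
      · rintro ⟨y, hy, rfl⟩
        exact (h.inv g hg _ _).2 hy
    show {x | R x (g z)}.Finite
    rw [h1]
    exact Set.Finite.image _ hz) {p} ⟨p, hp, rfl⟩
  intro y hy
  exact (key y p hy).2 rfl

theorem Ctx.dichotomy (h : Ctx r R F w) (p : M) : (∀ y, R y p → y = p) ∨ NoMax R p := by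
  by_cases hp : {x | R x p}.Finite
  · exact Or.inl (h.singleton_of_finite hp)
  · exact Or.inr (h.noMax_of_infinite hp)

theorem Ctx.dir (h : Ctx r R F w) {p a b : M} (ha : R a p) (hb : R b p) :
    ∃ c, R c p ∧ a ≤ c ∧ b ≤ c := by
  rcases h.dichotomy p with hp | hp
  · exact ⟨p, R.refl p, (hp a ha).le, (hp b hb).le⟩
  · exact (h.bounded_aux hp).2 a ha b hb

theorem Ctx.dirFin (h : Ctx r R F w) {p : M} (U : Finset M) (hU : ∀ u ∈ U, R u p) :
    ∃ v, R v p ∧ ∀ u ∈ U, u ≤ v := by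
  classical
  induction U using Finset.induction_on with
  | empty => exact ⟨p, R.refl p, by simp⟩
  | insert a U _ ih =>
    obtain ⟨v, hv, hvU⟩ := ih (fun u hu => hU u (Finset.mem_insert_of_mem hu))
    obtain ⟨c, hc, h1, h2⟩ := h.dir (hU a (Finset.mem_insert_self _ _)) hv
    refine ⟨c, hc, ?_⟩
    intro u hu
    rcases Finset.mem_insert.1 hu with rfl | hu
    · exact h1
    · exact (hvU u hu).trans h2

/-- in a class without maximal element, the set of elements not above `a` is bounded. -/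
theorem Ctx.bdd_not_ge (h : Ctx r R F w) {p a : M} (hp : NoMax R p) (ha : R a p) :
    ∃ u, R u p ∧ ∀ y, R y p → ¬ a ≤ y → y ≤ u := by
  obtain ⟨U, hU1, hU2⟩ := (h.bounded_aux hp).1 {y | R y p ∧ ¬ a ≤ y}
    ⟨fun x hx => hx.1, fun x hx y hy hyx => ⟨hy, fun hc => hx.2 (hc.trans hyx)⟩⟩
    ⟨a, ha, fun hc => hc.2 le_rfl⟩
  obtain ⟨v, hv, hvU⟩ := h.dirFin U hU1
  refine ⟨v, hv, ?_⟩
  intro y hy hay
  obtain ⟨u, hu, hyu⟩ := hU2 y ⟨hy, hay⟩
  exact hyu.trans (hvU u hu)

/-- two classes are linked. -/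
def lnk (R : Setoid M) (x y : M) : Prop :=
  (∃ x' y', R x' x ∧ R y' y ∧ x' < y') ∧ (∃ x' y', R x' x ∧ R y' y ∧ ¬ x' < y')

theorem lnk_mono {x x' y y' : M} (hx : R x x') (hy : R y y') (h : lnk R x y) : lnk R x' y' := by
  obtain ⟨⟨a, b, h1, h2, h3⟩, ⟨c, d, h4, h5, h6⟩⟩ := h
  exact ⟨⟨a, b, R.trans h1 hx, R.trans h2 hy, h3⟩, ⟨c, d, R.trans h4 hx, R.trans h5 hy, h6⟩⟩

theorem lnk_inv {g : M ≃o M} (hg : Inv R g) {x y : M} (h : lnk R x y) : lnk R (g x) (g y) := by
  obtain ⟨⟨a, b, h1, h2, h3⟩, ⟨c, d, h4, h5, h6⟩⟩ := h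
  exact ⟨⟨g a, g b, (hg _ _).2 h1, (hg _ _).2 h2, g.lt_iff_lt.2 h3⟩,
    ⟨g c, g d, (hg _ _).2 h4, (hg _ _).2 h5, fun hc => h6 (g.lt_iff_lt.1 hc)⟩⟩

theorem Ctx.l1 (h : Ctx r R F w) {x y : M} (hl : lnk R x y) : ∃ y', R y' y ∧ x < y' := by
  obtain ⟨⟨a, b, h1, h2, h3⟩, _⟩ := hl
  have key := h.rel (fun a b => ∃ c, R c b ∧ a < c) (by
    intro g hg a b
    constructor
    · rintro ⟨c, hc, hac⟩
      refine ⟨g.symm c, ?_, ?_⟩
      · rw [← h.inv g hg, g.apply_symm_apply]; exact hc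
      · rw [g.lt_symm_apply]; exact hac
    · rintro ⟨c, hc, hac⟩
      exact ⟨g c, (h.inv g hg _ _).2 hc, g.lt_iff_lt.2 hac⟩) (by
    intro a b b' hb
    constructor
    · rintro ⟨c, hc, hac⟩; exact ⟨c, R.trans hc hb, hac⟩
    · rintro ⟨c, hc, hac⟩; exact ⟨c, R.trans hc (R.symm hb), hac⟩) y h1
  exact key.1 ⟨b, h2, h3⟩

theorem Ctx.l2 (h : Ctx r R F w) {x y : M} (hl : lnk R x y) : ∃ y', R y' y ∧ ¬ x < y' := by
  obtain ⟨_, ⟨a, b, h1, h2, h3⟩⟩ := hl
  have key := h.rel (fun a b => ∃ c, R c b ∧ ¬ a < c) (by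
    intro g hg a b
    constructor
    · rintro ⟨c, hc, hac⟩
      refine ⟨g.symm c, ?_, ?_⟩
      · rw [← h.inv g hg, g.apply_symm_apply]; exact hc
      · rw [g.lt_symm_apply]; exact hac
    · rintro ⟨c, hc, hac⟩
      exact ⟨g c, (h.inv g hg _ _).2 hc, by rw [g.lt_iff_lt]; exact hac⟩) (by
    intro a b b' hb
    constructor
    · rintro ⟨c, hc, hac⟩; exact ⟨c, R.trans hc hb, hac⟩
    · rintro ⟨c, hc, hac⟩; exact ⟨c, R.trans hc (R.symm hb), hac⟩) y h1
  exact key.1 ⟨b, h2, h3⟩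

theorem Ctx.l3 (h : Ctx r R F w) {x y : M} (hl : lnk R x y) : ∃ x', R x' x ∧ x' < y := by
  obtain ⟨⟨a, b, h1, h2, h3⟩, _⟩ := hl
  have key := h.rel (fun a b => ∃ c, R c b ∧ c < a) (by
    intro g hg a b
    constructor
    · rintro ⟨c, hc, hac⟩
      refine ⟨g.symm c, ?_, ?_⟩
      · rw [← h.inv g hg, g.apply_symm_apply]; exact hc
      · rw [g.symm_apply_lt]; exact hac
    · rintro ⟨c, hc, hac⟩
      exact ⟨g c, (h.inv g hg _ _).2 hc, g.lt_iff_lt.2 hac⟩) (by
    intro a b b' hb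
    constructor
    · rintro ⟨c, hc, hac⟩; exact ⟨c, R.trans hc hb, hac⟩
    · rintro ⟨c, hc, hac⟩; exact ⟨c, R.trans hc (R.symm hb), hac⟩) x h2
  exact key.1 ⟨a, h1, h3⟩

theorem Ctx.l4 (h : Ctx r R F w) {x y : M} (hl : lnk R x y) : ∃ x', R x' x ∧ ¬ x' < y := by
  obtain ⟨_, ⟨a, b, h1, h2, h3⟩⟩ := hl
  have key := h.rel (fun a b => ∃ c, R c b ∧ ¬ c < a) (by
    intro g hg a b
    constructor
    · rintro ⟨c, hc, hac⟩
      refine ⟨g.symm c, ?_, ?_⟩
      · rw [← h.inv g hg, g.apply_symm_apply]; exact hc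
      · rw [g.symm_apply_lt]; exact hac
    · rintro ⟨c, hc, hac⟩
      exact ⟨g c, (h.inv g hg _ _).2 hc, by rw [g.lt_iff_lt]; exact hac⟩) (by
    intro a b b' hb
    constructor
    · rintro ⟨c, hc, hac⟩; exact ⟨c, R.trans hc hb, hac⟩
    · rintro ⟨c, hc, hac⟩; exact ⟨c, R.trans hc (R.symm hb), hac⟩) x h2
  exact key.1 ⟨a, h1, h3⟩

theorem Ctx.noMax_right (h : Ctx r R F w) {x y : M} (hl : lnk R x y) : NoMax R y := by
  rcases h.dichotomy y with hy | hy
  · obtain ⟨a, ha, h1⟩ := h.l1 hl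
    obtain ⟨b, hb, h2⟩ := h.l2 hl
    rw [hy a ha] at h1
    rw [hy b hb] at h2
    exact absurd h1 h2
  · exact hy

theorem Ctx.noMax_left (h : Ctx r R F w) {x y : M} (hl : lnk R x y) : NoMax R x := by
  rcases h.dichotomy x with hx | hx
  · obtain ⟨a, ha, h1⟩ := h.l3 hl
    obtain ⟨b, hb, h2⟩ := h.l4 hl
    rw [hx a ha] at h1
    rw [hx b hb] at h2
    exact absurd h1 h2
  · exact hx

/-- `y` is forced by `x`. -/
def forced (R : Setoid M) (x y : M) : Prop := (lnk R x y ∧ ¬ x < y) ∨ (lnk R y x ∧ y < x)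

theorem forced_inv {g : M ≃o M} (hg : Inv R g) {x y : M} (h : forced R x y) :
    forced R (g x) (g y) := by
  rcases h with ⟨h1, h2⟩ | ⟨h1, h2⟩
  · exact Or.inl ⟨lnk_inv hg h1, by rw [g.lt_iff_lt]; exact h2⟩
  · exact Or.inr ⟨lnk_inv hg h1, by rw [g.lt_iff_lt]; exact h2⟩

/-- bounded above in every class. -/
def Bdd (R : Setoid M) (X : Set M) : Prop := ∀ p, ∃ u, R u p ∧ ∀ x ∈ X, R x p → x ≤ u

theorem Bdd.mono {X Y : Set M} (h : Bdd R Y) (hXY : X ⊆ Y) : Bdd R X := by
  intro p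
  obtain ⟨u, hu, h1⟩ := h p
  exact ⟨u, hu, fun x hx => h1 x (hXY hx)⟩

theorem Ctx.bdd_union (h : Ctx r R F w) {X Y : Set M} (hX : Bdd R X) (hY : Bdd R Y) :
    Bdd R (X ∪ Y) := by
  intro p
  obtain ⟨u, hu, h1⟩ := hX p
  obtain ⟨v, hv, h2⟩ := hY p
  obtain ⟨c, hc, h3, h4⟩ := h.dir hu hv
  refine ⟨c, hc, ?_⟩
  rintro x (hx | hx) hxp
  · exact (h1 x hx hxp).trans h3
  · exact (h2 x hx hxp).trans h4

theorem bdd_singleton (x : M) : Bdd R {y | x = y} := by
  intro p
  by_cases hx : R x p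
  · exact ⟨x, hx, fun y hy _ => (hy : x = y).symm.le⟩
  · exact ⟨p, R.refl p, fun y hy hyp => absurd ((hy : x = y) ▸ hyp) hx⟩

theorem Ctx.bdd_forced (h : Ctx r R F w) {X : Set M} (hX : Bdd R X) :
    Bdd R {y | ∃ x ∈ X, forced R x y} := by
  classical
  have := h.fin
  have := Fintype.ofFinite (Quotient R)
  intro p
  choose u hu1 hu2 using fun q : Quotient R => hX q.out
  have key : ∀ q : Quotient R, ∃ v, R v p ∧ ∀ x, R x (u q) → x ≤ u q → ∀ y, R y p →
      forced R x y → y ≤ v := by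
    intro q
    have k1 : ∃ v, R v p ∧ ∀ x, R x (u q) → x ≤ u q → ∀ y, R y p →
        (lnk R x y ∧ ¬ x < y) → y ≤ v := by
      by_cases hl : lnk R (u q) p
      · obtain ⟨y0, hy0, hlt⟩ := h.l1 hl
        obtain ⟨v, hv, hb⟩ := h.bdd_not_ge (h.noMax_right hl) hy0
        refine ⟨v, hv, ?_⟩
        intro x _ hxu y hy ⟨_, hxy⟩
        apply hb y hy
        intro hc
        exact hxy (lt_of_le_of_lt hxu (lt_of_lt_of_le hlt hc))
      · refine ⟨p, R.refl p, ?_⟩
        intro x hx _ y hy ⟨hxy, _⟩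
        exact absurd (lnk_mono hx hy hxy) hl
    have k2 : ∃ v, R v p ∧ ∀ x, R x (u q) → x ≤ u q → ∀ y, R y p →
        (lnk R y x ∧ y < x) → y ≤ v := by
      by_cases hl : lnk R p (u q)
      · obtain ⟨y0, hy0, hlt⟩ := h.l4 hl
        obtain ⟨v, hv, hb⟩ := h.bdd_not_ge (h.noMax_left hl) hy0
        refine ⟨v, hv, ?_⟩
        intro x _ hxu y hy ⟨_, hyx⟩
        apply hb y hy
        intro hc
        exact hlt (lt_of_le_of_lt hc (lt_of_lt_of_le hyx hxu))
      · refine ⟨p, R.refl p, ?_⟩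
        intro x hx _ y hy ⟨hxy, _⟩
        exact absurd (lnk_mono hy hx hxy) hl
    obtain ⟨v1, hv1, hb1⟩ := k1
    obtain ⟨v2, hv2, hb2⟩ := k2
    obtain ⟨c, hc, h3, h4⟩ := h.dir hv1 hv2
    refine ⟨c, hc, ?_⟩
    intro x hx hxu y hy hf
    rcases hf with hf | hf
    · exact (hb1 x hx hxu y hy hf).trans h3
    · exact (hb2 x hx hxu y hy hf).trans h4
  choose v hv1 hv2 using key
  obtain ⟨c, hc, hcv⟩ := h.dirFin (Finset.univ.image v) (by
    intro z hz
    obtain ⟨q, _, rfl⟩ := Finset.mem_image.1 hz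
    exact hv1 q)
  refine ⟨c, hc, ?_⟩
  rintro y ⟨x, hx, hxy⟩ hyp
  let q := Quotient.mk R x
  have hxq : R x q.out := R.symm (Quotient.mk_out x)
  have h1 := hv2 q x (R.trans hxq (R.symm (hu1 q))) (hu2 q x hx hxq) y hyp hxy
  exact h1.trans (hcv _ (Finset.mem_image_of_mem _ (Finset.mem_univ q)))

/-- paths of bounded length. -/
def Pth (s : M → M → Prop) : ℕ → M → M → Prop
  | 0, x, y => x = y
  | n + 1, x, y => Pth s n x y ∨ ∃ z, Pth s n x z ∧ s z y

omit [PartialOrder M] in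
theorem exists_pth {s : M → M → Prop} {x y : M} : ReflTransGen s x y ↔ ∃ n, Pth s n x y := by
  constructor
  · intro h
    induction h with
    | refl => exact ⟨0, rfl⟩
    | tail _ h2 ih =>
      obtain ⟨n, hn⟩ := ih
      exact ⟨n + 1, Or.inr ⟨_, hn, h2⟩⟩
  · rintro ⟨n, hn⟩
    induction n generalizing y with
    | zero => rw [show x = y from hn]
    | succ n ih =>
      rcases hn with hn | ⟨z, hz, hzy⟩
      · exact ih hn
      · exact (ih hz).tail hzy

theorem pth_inv {s : M → M → Prop} (g : M ≃o M) (hg : ∀ x y, s x y → s (g x) (g y)) (n : ℕ) :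
    ∀ x y, Pth s n x y → Pth s n (g x) (g y) := by
  induction n with
  | zero => intro x y hxy; exact congrArg g hxy
  | succ n ih =>
    rintro x y (hxy | ⟨z, hz, hzy⟩)
    · exact Or.inl (ih x y hxy)
    · exact Or.inr ⟨g z, ih x z hz, hg z y hzy⟩

/-- increasing sequences of invariant relations stabilize. -/
theorem Ctx.stab (h : Ctx r R F w) (κ : ℕ → M → M → Prop)
    (hmono : ∀ n x y, κ n x y → κ (n + 1) x y)
    (hinv : ∀ n g, Inv r g → ∀ x y, κ n x y → κ n (g x) (g y)) :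
    ∃ N, ∀ n x y, κ n x y → κ N x y := by
  classical
  have hm : ∀ m n, m ≤ n → ∀ x y, κ m x y → κ n x y := by
    intro m n hmn
    induction hmn with
    | refl => exact fun x y h => h
    | step _ ih => exact fun x y h => hmono _ x y (ih x y h)
  let f : ℕ → ℕ := fun n => (F.filter (fun q => κ n q.1 q.2)).card
  have hex : ∃ N, ∀ n, f n ≤ f N := by
    by_contra hcon
    push Not at hcon
    have : ∀ m, ∃ n, m ≤ f n := by
      intro m
      induction m with
      | zero => exact ⟨0, Nat.zero_le _⟩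
      | succ m ih =>
        obtain ⟨n, hn⟩ := ih
        obtain ⟨n', hn'⟩ := hcon n
        exact ⟨n', by omega⟩
    obtain ⟨n, hn⟩ := this (F.card + 1)
    have := Finset.card_filter_le F (fun q => κ n q.1 q.2)
    have : f n ≤ F.card := this
    omega
  obtain ⟨N, hN⟩ := hex
  refine ⟨N, ?_⟩
  intro n x y hxy
  rcases le_total n N with hle | hle
  · exact hm n N hle x y hxy
  · have hsub : F.filter (fun q => κ N q.1 q.2) ⊆ F.filter (fun q => κ n q.1 q.2) := by
      intro q hq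
      rw [Finset.mem_filter] at hq ⊢
      exact ⟨hq.1, hm N n hle _ _ hq.2⟩
    have heq := Finset.eq_of_subset_of_card_le hsub (hN n)
    obtain ⟨q, hq, g, hg, rfl, rfl⟩ := h.cov x y
    have h1 : κ n q.1 q.2 := by
      have := hinv n g.symm hg.symm _ _ hxy
      rwa [g.symm_apply_apply, g.symm_apply_apply] at this
    have h2 : q ∈ F.filter (fun q => κ N q.1 q.2) := by
      rw [heq, Finset.mem_filter]
      exact ⟨hq, h1⟩
    rw [Finset.mem_filter] at h2
    exact hinv N g hg _ _ h2.2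

/-- closure of bounded sets under a path relation with bounded steps is bounded. -/
theorem Ctx.bdd_gen (h : Ctx r R F w) (s : M → M → Prop)
    (hs : ∀ X, Bdd R X → Bdd R {y | ∃ x ∈ X, s x y})
    (hg : ∀ g, Inv r g → ∀ x y, s x y → s (g x) (g y)) (x : M) :
    Bdd R {y | ReflTransGen s x y} := by
  obtain ⟨N, hN⟩ := h.stab (Pth s) (fun n x y hxy => Or.inl hxy)
    (fun n g hgi => pth_inv g (hg g hgi) n)
  have h1 : ∀ n, Bdd R {y | Pth s n x y} := by
    intro n
    induction n with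
    | zero => exact bdd_singleton x
    | succ n ih =>
      apply (h.bdd_union ih (hs _ ih)).mono
      rintro y (hy | ⟨z, hz, hzy⟩)
      · exact Or.inl hy
      · exact Or.inr ⟨z, hz, hzy⟩
  apply (h1 N).mono
  intro y hy
  obtain ⟨n, hn⟩ := exists_pth.1 hy
  exact hN n x y hn

/-- the closure. -/
def K (R : Setoid M) : M → M → Prop := ReflTransGen (forced R)

theorem Ctx.bdd_K (h : Ctx r R F w) (x : M) : Bdd R {y | K R x y} :=
  h.bdd_gen (forced R) (fun _ hX => h.bdd_forced hX)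
    (fun g hg _ _ hxy => forced_inv (h.inv g hg) hxy) x

theorem K_inv {g : M ≃o M} (hg : Inv R g) {x y : M} : K R (g x) (g y) ↔ K R x y := by
  have h1 : ∀ g : M ≃o M, Inv R g → ∀ x y, K R x y → K R (g x) (g y) := by
    intro g hg x y hxy
    induction hxy with
    | refl => exact ReflTransGen.refl
    | tail _ h2 ih => exact ih.tail (forced_inv hg h2)
  refine ⟨fun h => ?_, h1 g hg x y⟩
  have := h1 g.symm hg.symm _ _ h
  rwa [g.symm_apply_apply, g.symm_apply_apply] at this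

/-- connected by links. -/
def Lam (R : Setoid M) : M → M → Prop := EqvGen (fun x y => R x y ∨ lnk R x y)

theorem Lam.refl (x : M) : Lam R x x := EqvGen.refl x
theorem Lam.symm {x y : M} (h : Lam R x y) : Lam R y x := EqvGen.symm _ _ h
theorem Lam.trans {x y z : M} (h : Lam R x y) (h' : Lam R y z) : Lam R x z := EqvGen.trans _ _ _ h h'
theorem Lam.ofR {x y : M} (h : R x y) : Lam R x y := EqvGen.rel _ _ (Or.inl h)
theorem Lam.ofLnk {x y : M} (h : lnk R x y) : Lam R x y := EqvGen.rel _ _ (Or.inr h)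

theorem Lam_inv1 {g : M ≃o M} (hg : Inv R g) {x y : M} (h : Lam R x y) : Lam R (g x) (g y) := by
  induction h with
  | rel x y h =>
    rcases h with h | h
    · exact Lam.ofR ((hg _ _).2 h)
    · exact Lam.ofLnk (lnk_inv hg h)
  | refl x => exact Lam.refl _
  | symm x y _ ih => exact ih.symm
  | trans x y z _ _ ih1 ih2 => exact ih1.trans ih2

theorem Lam_inv {g : M ≃o M} (hg : Inv R g) {x y : M} : Lam R (g x) (g y) ↔ Lam R x y := by
  refine ⟨fun h => ?_, Lam_inv1 hg⟩
  have := Lam_inv1 hg.symm h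
  rwa [g.symm_apply_apply, g.symm_apply_apply] at this

theorem Lam.ofForced {x y : M} (h : forced R x y) : Lam R x y := by
  rcases h with h | h
  · exact Lam.ofLnk h.1
  · exact (Lam.ofLnk h.1).symm

theorem Lam.ofK {x y : M} (h : K R x y) : Lam R x y := by
  induction h with
  | refl => exact Lam.refl _
  | tail _ h2 ih => exact ih.trans (Lam.ofForced h2)

theorem K_of_le {u y : M} (hR : R y u) (hle : y ≤ u) : K R u y := by
  rcases hle.eq_or_lt with rfl | hlt
  · exact ReflTransGen.refl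
  · refine ReflTransGen.single (Or.inl ⟨⟨⟨y, u, hR, R.symm hR, hlt⟩, ⟨u, y, R.refl u, R.refl y, ?_⟩⟩, ?_⟩)
    · exact not_lt_of_gt hlt
    · exact not_lt_of_gt hlt

theorem Ctx.rho (h : Ctx r R F w) {x p : M} (hl : Lam R x p) :
    (∀ u, R u x → ∃ z, R z p ∧ K R z u) ∧ (∀ u, R u p → ∃ z, R z x ∧ K R z u) := by
  induction hl with
  | rel x p hxp =>
    rcases hxp with hxp | hxp
    · exact ⟨fun u hu => ⟨u, R.trans hu hxp, ReflTransGen.refl⟩,
        fun u hu => ⟨u, R.trans hu (R.symm hxp), ReflTransGen.refl⟩⟩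
    · constructor
      · intro u hu
        have hl : lnk R u p := lnk_mono (R.symm hu) (R.refl p) hxp
        obtain ⟨z, hz, huz⟩ := h.l1 hl
        exact ⟨z, hz, ReflTransGen.single (Or.inr ⟨lnk_mono (R.refl u) (R.symm hz) hl, huz⟩)⟩
      · intro u hu
        have hl : lnk R x u := lnk_mono (R.refl x) (R.symm hu) hxp
        obtain ⟨z, hz, hzu⟩ := h.l4 hl
        exact ⟨z, hz, ReflTransGen.single (Or.inl ⟨lnk_mono (R.symm hz) (R.refl u) hl, hzu⟩)⟩
  | refl x => exact ⟨fun u hu => ⟨u, hu, ReflTransGen.refl⟩, fun u hu => ⟨u, hu, ReflTransGen.refl⟩⟩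
  | symm x y _ ih => exact ⟨ih.2, ih.1⟩
  | trans x y z _ _ ih1 ih2 =>
    constructor
    · intro u hu
      obtain ⟨a, ha, hau⟩ := ih1.1 u hu
      obtain ⟨b, hb, hba⟩ := ih2.1 a ha
      exact ⟨b, hb, hba.trans hau⟩
    · intro u hu
      obtain ⟨a, ha, hau⟩ := ih2.2 u hu
      obtain ⟨b, hb, hba⟩ := ih1.2 a ha
      exact ⟨b, hb, hba.trans hau⟩

/-- `x` is strictly below `y` in the closure order. -/
def prec (R : Setoid M) (x y : M) : Prop := K R y x ∧ ¬ K R x y

/-- linked classes, not strictly comparable. -/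
def sr (R : Setoid M) (x y : M) : Prop := Lam R x y ∧ ¬ prec R x y ∧ ¬ prec R y x

/-- the block relation. -/
def E (R : Setoid M) : M → M → Prop := ReflTransGen (sr R)

theorem prec_inv {g : M ≃o M} (hg : Inv R g) {x y : M} : prec R (g x) (g y) ↔ prec R x y := by
  unfold prec
  rw [K_inv hg, K_inv hg]

theorem sr_inv {g : M ≃o M} (hg : Inv R g) {x y : M} : sr R (g x) (g y) ↔ sr R x y := by
  unfold sr
  rw [prec_inv hg, prec_inv hg, Lam_inv hg]

theorem E_inv {g : M ≃o M} (hg : Inv R g) {x y : M} : E R (g x) (g y) ↔ E R x y := by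
  have h1 : ∀ g : M ≃o M, Inv R g → ∀ x y, E R x y → E R (g x) (g y) := by
    intro g hg x y hxy
    induction hxy with
    | refl => exact ReflTransGen.refl
    | tail _ h2 ih => exact ih.tail ((sr_inv hg).2 h2)
  refine ⟨fun h => ?_, h1 g hg x y⟩
  have := h1 g.symm hg.symm _ _ h
  rwa [g.symm_apply_apply, g.symm_apply_apply] at this

theorem sr_symm {x y : M} (h : sr R x y) : sr R y x := ⟨h.1.symm, h.2.2, h.2.1⟩

theorem E_symm {x y : M} (h : E R x y) : E R y x := by
  induction h with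
  | refl => exact ReflTransGen.refl
  | tail _ h2 ih => exact ReflTransGen.head (sr_symm h2) ih

theorem Lam.ofE {x y : M} (h : E R x y) : Lam R x y := by
  induction h with
  | refl => exact Lam.refl _
  | tail _ h2 ih => exact ih.trans h2.1

theorem Ctx.bdd_sr (h : Ctx r R F w) {Y : Set M} (hY : Bdd R Y) :
    Bdd R {z | ∃ y ∈ Y, sr R y z} := by
  classical
  have := h.fin
  have := Fintype.ofFinite (Quotient R)
  intro p
  rcases h.dichotomy p with hp | hp
  · exact ⟨p, R.refl p, fun x _ hx => (hp x hx).le⟩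
  · choose u hu1 hu2 using fun q : Quotient R => hY q.out
    choose v hv1 hv2 using fun q : Quotient R => h.bdd_K (u q) p
    have hz : ∀ q : Quotient R, ∃ z, R z p ∧ (Lam R q.out p → K R z (u q)) := by
      intro q
      by_cases hq : Lam R q.out p
      · obtain ⟨z, hz, hzu⟩ := (h.rho hq).1 (u q) (hu1 q)
        exact ⟨z, hz, fun _ => hzu⟩
      · exact ⟨p, R.refl p, fun hc => absurd hc hq⟩
    choose z hz1 hz2 using hz
    obtain ⟨t, ht, htU⟩ := h.dirFin (Finset.univ.image v ∪ Finset.univ.image z) (by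
      intro a ha
      rcases Finset.mem_union.1 ha with ha | ha
      · obtain ⟨q, _, rfl⟩ := Finset.mem_image.1 ha
        exact hv1 q
      · obtain ⟨q, _, rfl⟩ := Finset.mem_image.1 ha
        exact hz1 q)
    obtain ⟨t', ht', htt'⟩ := hp t ht
    obtain ⟨c, hc, hcb⟩ := h.bdd_not_ge hp ht'
    refine ⟨c, hc, ?_⟩
    rintro a ⟨y, hy, hya⟩ hap
    apply hcb a hap
    intro hta
    apply hya.2.1
    let q := Quotient.mk R y
    have hyq : R y q.out := R.symm (Quotient.mk_out y)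
    have hyu : y ≤ u q := hu2 q y hy hyq
    have hKuy : K R (u q) y := K_of_le (R.trans hyq (R.symm (hu1 q))) hyu
    have hqp : Lam R q.out p := ((Lam.ofR (R.symm hyq)).trans hya.1).trans (Lam.ofR hap)
    have hvt : v q ≤ t := htU _ (Finset.mem_union_left _
      (Finset.mem_image_of_mem _ (Finset.mem_univ q)))
    have hzt : z q ≤ t := htU _ (Finset.mem_union_right _
      (Finset.mem_image_of_mem _ (Finset.mem_univ q)))
    refine ⟨?_, ?_⟩
    · have h1 : K R a (z q) := K_of_le (R.trans (hz1 q) (R.symm hap))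
        ((hzt.trans htt'.le).trans hta)
      exact (h1.trans (hz2 q hqp)).trans hKuy
    · intro hKya
      have h1 : K R (u q) a := hKuy.trans hKya
      have h2 := hv2 q a h1 hap
      exact absurd (lt_of_le_of_lt (h2.trans hvt) (lt_of_lt_of_le htt' hta)) (lt_irrefl _)

theorem Ctx.bdd_E (h : Ctx r R F w) (x : M) : Bdd R {y | E R x y} :=
  h.bdd_gen (sr R) (fun _ hX => h.bdd_sr hX)
    (fun g hg _ _ hxy => (sr_inv (h.inv g hg)).2 hxy) x

theorem Ctx.exists_not_E (h : Ctx r R F w) [Infinite M] : ∃ x y, ¬ E R x y := by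
  classical
  have := h.fin
  have : ∃ p : M, {x | R x p}.Infinite := by
    by_contra hcon
    push Not at hcon
    have : (Set.univ : Set M).Finite := by
      apply Set.Finite.subset (Set.finite_iUnion (fun q : Quotient R => hcon q.out))
      intro x _
      rw [Set.mem_iUnion]
      exact ⟨Quotient.mk R x, R.symm (Quotient.mk_out x)⟩
    exact Set.infinite_univ this
  obtain ⟨p, hp⟩ := this
  obtain ⟨u, hu, hub⟩ := h.bdd_E p p
  obtain ⟨v, hv, huv⟩ := h.noMax_of_infinite hp u hu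
  refine ⟨p, v, ?_⟩
  intro hE
  exact absurd (hub v hE hv) (not_le_of_gt huv)

/-! ### relations between different blocks -/

theorem rel_const {x x' y y' : M} (hx : R x x') (hy : R y y') (h : ¬ K R x y)
    (h' : ¬ K R x' y') : (x < y ↔ x' < y') ∧ (y < x ↔ y' < x') := by
  have f : ¬ forced R x y := fun hf => h (ReflTransGen.single hf)
  have f' : ¬ forced R x' y' := fun hf => h' (ReflTransGen.single hf)
  have hlxy : lnk R x y ↔ lnk R x' y' := ⟨lnk_mono hx hy, lnk_mono (R.symm hx) (R.symm hy)⟩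
  have hlyx : lnk R y x ↔ lnk R y' x' := ⟨lnk_mono hy hx, lnk_mono (R.symm hy) (R.symm hx)⟩
  unfold forced at f f'
  push Not at f f'
  constructor
  · by_cases hl : lnk R x y
    · exact ⟨fun _ => f'.1 (hlxy.1 hl), fun _ => f.1 hl⟩
    · constructor
      · intro hlt
        by_contra hc
        exact hl ⟨⟨x, y, R.refl x, R.refl y, hlt⟩, ⟨x', y', R.symm hx, R.symm hy, hc⟩⟩
      · intro hlt
        by_contra hc
        exact hl ⟨⟨x', y', R.symm hx, R.symm hy, hlt⟩, ⟨x, y, R.refl x, R.refl y, hc⟩⟩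
  · by_cases hl : lnk R y x
    · exact ⟨fun hc => absurd hc (f.2 hl), fun hc => absurd hc (f'.2 (hlyx.1 hl))⟩
    · constructor
      · intro hlt
        by_contra hc
        exact hl ⟨⟨y, x, R.refl y, R.refl x, hlt⟩, ⟨y', x', R.symm hy, R.symm hx, hc⟩⟩
      · intro hlt
        by_contra hc
        exact hl ⟨⟨y', x', R.symm hy, R.symm hx, hlt⟩, ⟨y, x, R.refl y, R.refl x, hc⟩⟩

theorem prec_trans {x y z : M} (h : prec R x y) (h' : prec R y z) : prec R x z :=
  ⟨h'.1.trans h.1, fun hc => h'.2 (h.1.trans hc)⟩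

theorem prec_irrefl (x : M) : ¬ prec R x x := fun h => h.2 h.1

theorem prec_or {x z : M} (hl : Lam R x z) (hE : ¬ E R x z) : prec R x z ∨ prec R z x := by
  by_contra hc
  push Not at hc
  exact hE (ReflTransGen.single ⟨hl, hc.1, hc.2⟩)

theorem prec_left {x x' z : M} (h : prec R x z) (hE : E R x x') (hn : ¬ E R x z) :
    prec R x' z := by
  have hn' : ∀ b, E R x b → ¬ E R b z := fun b hb hc => hn (hb.trans hc)
  induction hE with
  | refl => exact h
  | @tail a b hxa hab ih =>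
    have hl : Lam R b z := (hab.1.symm.trans (Lam.ofE (E_symm hxa))).trans (Lam.ofK h.1).symm
    rcases prec_or hl (hn' b (hxa.tail hab)) with hc | hc
    · exact hc
    · exact absurd (prec_trans ih hc) hab.2.1

theorem prec_right {x x' z : M} (h : prec R z x) (hE : E R x x') (hn : ¬ E R x z) :
    prec R z x' := by
  have hn' : ∀ b, E R x b → ¬ E R b z := fun b hb hc => hn (hb.trans hc)
  induction hE with
  | refl => exact h
  | @tail a b hxa hab ih =>
    have hl : Lam R b z := (hab.1.symm.trans (Lam.ofE (E_symm hxa))).trans (Lam.ofK h.1)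
    rcases prec_or hl (hn' b (hxa.tail hab)) with hc | hc
    · exact absurd (prec_trans hc ih) hab.2.2
    · exact hc

/-- strict order between blocks. -/
def bl (R : Setoid M) (x y : M) : Prop := prec R x y ∧ ¬ E R x y

theorem bl_inv {g : M ≃o M} (hg : Inv R g) {x y : M} : bl R (g x) (g y) ↔ bl R x y := by
  unfold bl
  rw [prec_inv hg, E_inv hg]

theorem bl_E_left {x x' z : M} (h : bl R x z) (hE : E R x x') : bl R x' z :=
  ⟨prec_left h.1 hE h.2, fun hc => h.2 (hE.trans hc)⟩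

theorem bl_E_right {x z z' : M} (h : bl R x z) (hE : E R z z') : bl R x z' :=
  ⟨prec_right h.1 hE (fun hc => h.2 (E_symm hc)), fun hc => h.2 (hc.trans (E_symm hE))⟩

theorem bl_trans {x y z : M} (h : bl R x y) (h' : bl R y z) : bl R x z := by
  refine ⟨prec_trans h.1 h'.1, fun hc => ?_⟩
  have h1 := bl_E_left h hc
  exact prec_irrefl _ (prec_trans h1.1 h'.1)

theorem bl_irrefl (x : M) : ¬ bl R x x := fun h => h.2 ReflTransGen.refl

theorem bl_or {x z : M} (hl : Lam R x z) (hE : ¬ E R x z) : bl R x z ∨ bl R z x := by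
  rcases prec_or hl hE with h | h
  · exact Or.inl ⟨h, hE⟩
  · exact Or.inr ⟨h, fun hc => hE (E_symm hc)⟩

/-- elements of the same class on the same side of `z` have the same relation to `z`. -/
theorem side_const {x x' z : M} (hx : R x x')
    (h : (¬ K R x z ∧ ¬ K R x' z) ∨ (¬ K R z x ∧ ¬ K R z x')) :
    (x < z ↔ x' < z) ∧ (z < x ↔ z < x') := by
  rcases h with ⟨h1, h2⟩ | ⟨h1, h2⟩
  · exact rel_const hx (R.refl z) h1 h2
  · exact (rel_const (R.refl z) hx h1 h2).symm

theorem E_glue {x x' z : M} (hx : R x x') (hE : E R x x') (hn : ¬ E R x z) :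
    (x < z ↔ x' < z) ∧ (z < x ↔ z < x') := by
  apply side_const hx
  by_cases hl : Lam R x z
  · rcases bl_or hl hn with h | h
    · exact Or.inl ⟨h.1.2, (bl_E_left h hE).1.2⟩
    · exact Or.inr ⟨h.1.2, (bl_E_right h hE).1.2⟩
  · exact Or.inl ⟨fun hc => hl (Lam.ofK hc), fun hc => hl ((Lam.ofE hE).trans (Lam.ofK hc))⟩

end Pool.Agent.H669.FA
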