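import Pool.Agent.H669.FA.Blocks

set_option autoImplicit false

/-!
# The induction: the star property
-/

namespace Pool.Agent.H669.FA

universe u

open Relation

/-- restriction of an order automorphism to an invariant subset. -/
def restr {M : Type u} [PartialOrder M] (g : M ≃o M) (I : M → Prop) (hI : ∀ x, I (g x) ↔ I x) :
    {x // I x} ≃o {x // I x} where
  toEquiv := g.toEquiv.subtypeEquiv (fun x => (hI x).symm)
  map_rel_iff' := by
    intro a b
    exact g.le_iff_le

@[simp] theorem restr_apply {M : Type u} [PartialOrder M] (g : M ≃o M) (I : M → Prop)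
    (hI : ∀ x, I (g x) ↔ I x) (x : {x // I x}) : ((restr g I hI x : {x // I x}) : M) = g x := rfl

section

variable {M : Type u} [PartialOrder M]
variable {r R : Setoid M} {F : Finset (M × M)} {w : ℕ}

/-- gluing an automorphism of a part with the identity. -/
theorem glue' {R : Setoid M} (I : M → Prop)
    (hI : ∀ x x' z, I x → I x' → R x x' → ¬ I z → ((x < z ↔ x' < z) ∧ (z < x ↔ z < x')))
    (h' : {x // I x} ≃o {x // I x}) (hR : ∀ x, R (h' x : M) x) :
    ∃ h : M ≃o M, Nm R h ∧ (∀ x (hx : I x), h x = h' ⟨x, hx⟩) ∧ ∀ x, ¬ I x → h x = x := by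
  classical
  let f : Equiv.Perm M := Equiv.Perm.ofSubtype h'.toEquiv
  have hf1 : ∀ x (hx : I x), f x = h' ⟨x, hx⟩ := fun x hx =>
    Equiv.Perm.ofSubtype_apply_of_mem h'.toEquiv hx
  have hf0 : ∀ x, ¬ I x → f x = x := fun x hx =>
    Equiv.Perm.ofSubtype_apply_of_not_mem h'.toEquiv hx
  obtain ⟨h, hn, ha⟩ := glue (R := R) {x | I x}
    (fun x hx x' hx' hxx z hz => hI x x' z hx hx' hxx hz) f (fun z hz => hf0 z hz)
    (fun z hz => by
      show I (f z)
      rw [hf1 z hz]
      exact (h' ⟨z, hz⟩).2)
    (fun x hx y hy => by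
      rw [hf1 x hx, hf1 y hy]
      exact h'.le_iff_le (x := ⟨x, hx⟩) (y := ⟨y, hy⟩))
    (fun x hx => by
      rw [hf1 x hx]
      exact hR ⟨x, hx⟩)
  refine ⟨h, hn, fun x hx => ?_, fun x hx => ?_⟩
  · rw [ha, hf1 x hx]
  · rw [ha, hf0 x hx]

/-- extreme elements of a finite set. -/
theorem exists_extreme {α : Type*} (L : Finset α) (ρ : α → α → Prop)
    (htr : ∀ x y z, ρ x y → ρ y z → ρ x z) (hir : ∀ x, ¬ ρ x x) :
    ∃ d ⊆ L, d.card ≤ 1 ∧ ∀ c ∈ L, ∃ c' ∈ d, ¬ ρ c' c := by
  classical
  rcases L.eq_empty_or_nonempty with rfl | hne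
  · exact ⟨∅, by simp, by simp, by simp⟩
  · obtain ⟨m, hm, hmax⟩ := Finset.exists_max_image L (fun c => (L.filter (fun x => ρ x c)).card) hne
    refine ⟨{m}, by simpa using hm, by simp, ?_⟩
    intro c hc
    refine ⟨m, by simp, ?_⟩
    intro hmc
    have h1 : insert m (L.filter (fun x => ρ x m)) ⊆ L.filter (fun x => ρ x c) := by
      intro x hx
      rcases Finset.mem_insert.1 hx with rfl | hx
      · rw [Finset.mem_filter]; exact ⟨hm, hmc⟩
      · rw [Finset.mem_filter] at hx ⊢
        exact ⟨hx.1, htr _ _ _ hx.2 hmc⟩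
    have h2 := Finset.card_le_card h1
    rw [Finset.card_insert_of_notMem] at h2
    · have := hmax c hc
      omega
    · intro hx
      rw [Finset.mem_filter] at hx
      exact hir m hx.2

/-- the star property of a block gives the star property at its points. -/
theorem Ctx.block_star (h : Ctx r R F w) (p : M) {k : ℕ}
    (hk : Star (R.comap (Subtype.val : {x // E R p x} → M)) k) : StarAt R (k + 2) p := by
  classical
  intro C
  by_cases hC : ∃ c ∈ C, E R p c
  · obtain ⟨c0, hc0, hEc0⟩ := hC
    obtain ⟨de, hde, hdek, hdes⟩ := hk ⟨p, ReflTransGen.refl⟩ (C.subtype (fun x => E R p x))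
    refine ⟨insert c0 (de.map (Function.Embedding.subtype _)), ?_, ?_, ?_⟩
    · intro x hx
      rcases Finset.mem_insert.1 hx with rfl | hx
      · exact hc0
      · obtain ⟨y, hy, rfl⟩ := Finset.mem_map.1 hx
        have := hde hy
        rw [Finset.mem_subtype] at this
        exact this
    · refine (Finset.card_insert_le _ _).trans ?_
      rw [Finset.card_map]
      omega
    · intro g hg hgd
      have hgi : Inv R g := hg.inv
      have hgc0 : g c0 = c0 := hgd c0 (Finset.mem_insert_self _ _)
      have hEg : ∀ x, E R p (g x) ↔ E R p x := by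
        intro x
        have h1 : E R c0 (g x) ↔ E R c0 x := by
          have := E_inv hgi (x := c0) (y := x)
          rw [hgc0] at this
          exact this
        exact ⟨fun h2 => hEc0.trans (h1.1 ((E_symm hEc0).trans h2)),
          fun h2 => hEc0.trans (h1.2 ((E_symm hEc0).trans h2))⟩
      obtain ⟨h', hn', hC', hb'⟩ := hdes (restr g _ hEg) (fun x => hg x.1) (by
        intro x hx
        apply Subtype.ext
        rw [restr_apply]
        exact hgd x.1 (Finset.mem_insert_of_mem (Finset.mem_map.2 ⟨x, hx, rfl⟩)))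
      obtain ⟨f, hfn, hf1, hf0⟩ := glue' (R := R) (fun x => E R p x)
        (fun x x' z hx hx' hxx hz => E_glue hxx ((E_symm hx).trans hx')
          (fun hc => hz (hx.trans hc))) h' hn'
      refine ⟨f, hfn, ?_, ?_⟩
      · intro x hx
        by_cases hEx : E R p x
        · rw [hf1 x hEx, hC' ⟨x, hEx⟩ (by rw [Finset.mem_subtype]; exact hx)]
        · exact hf0 x hEx
      · rw [hf1 p ReflTransGen.refl, hb', restr_apply]
  · push Not at hC
    obtain ⟨dL, hdL, hdLc, hdLe⟩ := exists_extreme (C.filter (fun c => bl R c p)) (bl R)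
      (fun x y z h1 h2 => bl_trans h1 h2) bl_irrefl
    obtain ⟨dU, hdU, hdUc, hdUe⟩ := exists_extreme (C.filter (fun c => bl R p c))
      (fun x y => bl R y x) (fun x y z h1 h2 => bl_trans h2 h1) bl_irrefl
    let I : M → Prop := fun z => Lam R z p ∧ (∀ c ∈ dL, bl R c z) ∧ ∀ c ∈ dU, bl R z c
    have hCI : ∀ c ∈ C, ¬ I c := by
      rintro c hc ⟨h1, h2, h3⟩
      rcases bl_or h1.symm (hC c hc) with hb | hb
      · obtain ⟨c', hc', hcc'⟩ := hdUe c (Finset.mem_filter.2 ⟨hc, hb⟩)
        exact hcc' (h3 c' hc')
      · obtain ⟨c', hc', hcc'⟩ := hdLe c (Finset.mem_filter.2 ⟨hc, hb⟩)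
        exact hcc' (h2 c' hc')
    have hpI : I p := ⟨Lam.refl p, fun c hc => (Finset.mem_filter.1 (hdL hc)).2,
      fun c hc => (Finset.mem_filter.1 (hdU hc)).2⟩
    refine ⟨dL ∪ dU, ?_, ?_, ?_⟩
    · apply Finset.union_subset
      · exact hdL.trans (Finset.filter_subset _ _)
      · exact hdU.trans (Finset.filter_subset _ _)
    · refine (Finset.card_union_le _ _).trans ?_
      omega
    · intro g hg hgd
      have hgi : Inv R g := hg.inv
      have hIg : ∀ x, I (g x) ↔ I x := by
        intro x
        have e1 : Lam R (g x) p ↔ Lam R x p :=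
          ⟨fun h1 => (Lam.ofR (R.symm (hg x))).trans h1, fun h1 => (Lam.ofR (hg x)).trans h1⟩
        have e2 : ∀ c ∈ dL, (bl R c (g x) ↔ bl R c x) := by
          intro c hc
          have := bl_inv hgi (x := c) (y := x)
          rw [hgd c (Finset.mem_union_left _ hc)] at this
          exact this
        have e3 : ∀ c ∈ dU, (bl R (g x) c ↔ bl R x c) := by
          intro c hc
          have := bl_inv hgi (x := x) (y := c)
          rw [hgd c (Finset.mem_union_right _ hc)] at this
          exact this
        constructor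
        · rintro ⟨h1, h2, h3⟩
          exact ⟨e1.1 h1, fun c hc => (e2 c hc).1 (h2 c hc), fun c hc => (e3 c hc).1 (h3 c hc)⟩
        · rintro ⟨h1, h2, h3⟩
          exact ⟨e1.2 h1, fun c hc => (e2 c hc).2 (h2 c hc), fun c hc => (e3 c hc).2 (h3 c hc)⟩
      obtain ⟨f, hfn, hf1, hf0⟩ := glue' (R := R) I (by
        rintro x x' z hx hx' hxx hz
        apply side_const hxx
        by_cases hl : Lam R z p
        · have hz' : (∃ c ∈ dL, ¬ bl R c z) ∨ (∃ c ∈ dU, ¬ bl R z c) := by
            by_contra hcon
            push Not at hcon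
            exact hz ⟨hl, hcon.1, hcon.2⟩
          rcases hz' with ⟨c, hc, hcz⟩ | ⟨c, hc, hcz⟩
          · right
            -- `z` is on the side of `c`, below `x`
            have key : ∀ y, I y → bl R z y := by
              intro y hy
              have hcy := hy.2.1 c hc
              by_cases hE : E R c z
              · exact bl_E_left hcy hE
              · have hlcz : Lam R c z := ((Lam.ofK hcy.1.1).symm.trans hy.1).trans hl.symm
                rcases bl_or hlcz hE with hb | hb
                · exact absurd hb hcz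
                · exact bl_trans hb hcy
            exact ⟨(key x hx).1.2, (key x' hx').1.2⟩
          · left
            have key : ∀ y, I y → bl R y z := by
              intro y hy
              have hcy := hy.2.2 c hc
              by_cases hE : E R c z
              · exact bl_E_right hcy hE
              · have hlcz : Lam R c z := ((Lam.ofK hcy.1.1).trans hy.1).trans hl.symm
                rcases bl_or hlcz hE with hb | hb
                · exact bl_trans hcy hb
                · exact absurd hb hcz
            exact ⟨(key x hx).1.2, (key x' hx').1.2⟩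
        · left
          exact ⟨fun hc => hl ((Lam.ofK hc).symm.trans hx.1),
            fun hc => hl ((Lam.ofK hc).symm.trans hx'.1)⟩)
        (restr g I hIg) (fun x => hg x.1)
      refine ⟨f, hfn, ?_, ?_⟩
      · intro x hx
        exact hf0 x (hCI x hx)
      · rw [hf1 p hpI, restr_apply]

theorem Ctx.block_cov (h : Ctx r R F w) {n : ℕ} (hF : F.card ≤ n + 1) [Infinite M] (p : M) :
    Cov (R.comap (Subtype.val : {x // E R p x} → M)) n := by
  classical
  obtain ⟨x0, y0, hxy0⟩ := h.exists_not_E
  obtain ⟨q0, hq0, g0, hg0, hgx0, hgy0⟩ := h.cov x0 y0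
  have hq0E : ¬ E R q0.1 q0.2 := by
    intro hc
    apply hxy0
    rw [← hgx0, ← hgy0]
    exact (E_inv (h.inv g0 hg0)).2 hc
  let e := {x // E R p x}
  let G : M × M → Prop := fun q => ∃ g, Inv r g ∧ E R p (g q.1) ∧ E R p (g q.2)
  have hG : ∀ q : M × M, ∃ g, G q → (Inv r g ∧ E R p (g q.1) ∧ E R p (g q.2)) := by
    intro q
    by_cases hq : G q
    · obtain ⟨g, hg⟩ := hq
      exact ⟨g, fun _ => hg⟩
    · exact ⟨OrderIso.refl M, fun hc => absurd hc hq⟩
  choose γ hγ using hG
  let tr : M × M → e × e := fun q => if hq : G q then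
    (⟨γ q q.1, (hγ q hq).2.1⟩, ⟨γ q q.2, (hγ q hq).2.2⟩) else
    (⟨p, ReflTransGen.refl⟩, ⟨p, ReflTransGen.refl⟩)
  refine ⟨(F.erase q0).image tr, ?_, ?_⟩
  · refine Finset.card_image_le.trans ?_
    rw [Finset.card_erase_of_mem hq0]
    omega
  · intro x y
    obtain ⟨q, hq, g, hg, hgx, hgy⟩ := h.cov x.1 y.1
    have hEq : E R q.1 q.2 := by
      rw [← E_inv (h.inv g hg), hgx, hgy]
      exact (E_symm x.2).trans y.2
    have hqne : q ≠ q0 := fun hc => hq0E (hc ▸ hEq)
    have hGq : G q := ⟨g, hg, by rw [hgx]; exact x.2, by rw [hgy]; exact y.2⟩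
    refine ⟨tr q, Finset.mem_image_of_mem tr (Finset.mem_erase.2 ⟨hqne, hq⟩), ?_⟩
    have htr : tr q = (⟨γ q q.1, (hγ q hGq).2.1⟩, ⟨γ q q.2, (hγ q hGq).2.2⟩) := dif_pos hGq
    have hγi := h.inv _ (hγ q hGq).1
    let f : M ≃o M := (γ q).symm.trans g
    have hfi : Inv R f := (hγi.symm).trans (h.inv g hg)
    have hf1 : f (γ q q.1) = x.1 := by
      show g ((γ q).symm (γ q q.1)) = x.1
      rw [OrderIso.symm_apply_apply, hgx]
    have hf2 : f (γ q q.2) = y.1 := by
      show g ((γ q).symm (γ q q.2)) = y.1
      rw [OrderIso.symm_apply_apply, hgy]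
    have hEf : ∀ z, E R p (f z) ↔ E R p z := by
      intro z
      have h1 : E R (f (γ q q.1)) (f z) ↔ E R (γ q q.1) z := E_inv hfi
      rw [hf1] at h1
      have h2 := (hγ q hGq).2.1
      exact ⟨fun h3 => h2.trans (h1.1 ((E_symm x.2).trans h3)),
        fun h3 => x.2.trans (h1.2 ((E_symm h2).trans h3))⟩
    refine ⟨restr f _ hEf, ?_, ?_, ?_⟩
    · intro a b
      exact hfi a.1 b.1
    · apply Subtype.ext
      rw [restr_apply, htr]
      exact hf1
    · apply Subtype.ext
      rw [restr_apply, htr]
      exact hf2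

end

/-- **Main theorem of the group-theoretic part.** -/
theorem exists_star (w : ℕ) (n : ℕ) : ∀ (M : Type u) [PartialOrder M] (r : Setoid M)
    [Finite (Quotient r)], Wd M w → Cov r n → ∃ k, Star r k := by
  classical
  induction n with
  | zero =>
    intro M _ r _ _ hc
    obtain ⟨F, hF, hcov⟩ := hc
    refine ⟨0, fun b => ?_⟩
    obtain ⟨q, hq, _⟩ := hcov b b
    rw [Finset.card_eq_zero.1 (Nat.le_zero.1 hF)] at hq
    exact absurd hq (Finset.notMem_empty _)
  | succ n ih =>
    intro M _ r _ hw hc
    rcases finite_or_infinite M with hfin | hinf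
    · have := Fintype.ofFinite M
      refine ⟨Fintype.card M, fun b C => ⟨C, Finset.Subset.refl C, Finset.card_le_univ C, ?_⟩⟩
      intro g hg hgC
      exact ⟨g, hg, hgC, rfl⟩
    · obtain ⟨R, F, hF, h⟩ := exists_ctx r hw hc
      have hfR := h.fin
      have hk : ∀ p : M, ∃ k, StarAt R k p := by
        intro p
        have h1 : Finite (Quotient (R.comap (Subtype.val : {x // E R p x} → M))) := by
          apply finite_quotient_of_fun _ (fun x : {x // E R p x} => Quotient.mk R x.1)
          intro x y hxy
          exact (Quotient.exact hxy : R x.1 y.1)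
        have h2 : Wd {x // E R p x} w := by
          intro s hs
          have h3 : IsAntichain (· ≤ ·) ((s.map (Function.Embedding.subtype _) : Finset M) : Set M) := by
            intro a ha b hb hab hle
            rw [Finset.mem_coe, Finset.mem_map] at ha hb
            obtain ⟨a', ha', rfl⟩ := ha
            obtain ⟨b', hb', rfl⟩ := hb
            exact hs ha' hb' (fun hc => hab (by rw [hc])) hle
          have := hw _ h3
          rwa [Finset.card_map] at this
        obtain ⟨k, hk⟩ := ih {x // E R p x} (R.comap Subtype.val) h2 (h.block_cov hF p)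
        exact ⟨k + 2, h.block_star p hk⟩
      choose k hk using hk
      have hs : Star R (F.sup (fun q => k q.1)) := by
        intro b
        obtain ⟨q, hq, g, hg, hgb, _⟩ := h.cov b b
        rw [← hgb]
        exact ((hk q.1).mono (Finset.le_sup (f := fun q : M × M => k q.1) hq)).conj (h.inv g hg)
      exact unname h.le (fun g hg => h.inv g hg.inv) hs

end Pool.Agent.H669.FA
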