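import Pool.Agent.H669.FA.Axiom

set_option autoImplicit false

/-!
# Finite axiomatizability of omega-categorical orders of finite width
-/

namespace Pool.Agent.H669.FA

open FirstOrder FirstOrder.Language

/-- finite orders are finitely axiomatizable. -/
theorem fa_finite (A : Type) [PartialOrder A] [Language.order.Structure A]
    [Language.order.OrderedStructure A] [Finite A] :
    ∃ χ : Language.order.Sentence, A ⊨ χ ∧
      ∀ (N : Type) [Language.order.Structure N], N ⊨ χ →
        ∀ φ : Language.order.Sentence, A ⊨ φ ↔ N ⊨ φ := by
  classical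
  let le (i j : A) : Language.order.Formula A :=
    (leSymb : Language.order.Relations 2).formula₂ (Term.var i) (Term.var j)
  let eq (i j : A) : Language.order.Formula A := Term.equal (Term.var i) (Term.var j)
  let lit : Language.order.Formula A := BoundedFormula.iInf (fun p : A × A =>
    (if p.1 ≤ p.2 then le p.1 p.2 else Formula.not (le p.1 p.2)) ⊓
      (if p.1 = p.2 then eq p.1 p.2 else Formula.not (eq p.1 p.2)))
  let sur0 : Language.order.Formula (A ⊕ Unit) :=
    BoundedFormula.iSup (fun i : A => Term.equal (Term.var (Sum.inr ())) (Term.var (Sum.inl i)))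
  let sur : Language.order.Formula A := Formula.iAlls Unit sur0
  let χ : Language.order.Sentence :=
    Formula.iExs A ((lit ⊓ sur).relabel (Sum.inr : A → Empty ⊕ A))
  have hle : ∀ (i j : A) (X : Type) [Language.order.Structure X] (a : A → X),
      (le i j).Realize a ↔ Structure.RelMap (leSymb : Language.order.Relations 2) ![a i, a j] := by
    intro i j X _ a
    exact Formula.realize_rel₂
  have heq : ∀ (i j : A) (X : Type) [Language.order.Structure X] (a : A → X),
      (eq i j).Realize a ↔ a i = a j := by
    intro i j X _ a
    exact Formula.realize_equal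
  have hlit : ∀ (X : Type) [Language.order.Structure X] (a : A → X), lit.Realize a ↔
      ∀ i j, (Structure.RelMap (leSymb : Language.order.Relations 2) ![a i, a j] ↔ i ≤ j) ∧
        (a i = a j ↔ i = j) := by
    intro X _ a
    have h1 : lit.Realize a ↔ ∀ p : A × A,
        ((if p.1 ≤ p.2 then le p.1 p.2 else Formula.not (le p.1 p.2)).Realize a ∧
        (if p.1 = p.2 then eq p.1 p.2 else Formula.not (eq p.1 p.2)).Realize a) := by
      refine BoundedFormula.realize_iInf.trans ?_
      apply forall_congr'
      intro p
      exact BoundedFormula.realize_inf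
    rw [h1]
    constructor
    · intro h i j
      obtain ⟨h2, h3⟩ := h (i, j)
      dsimp only at h2 h3
      constructor
      · by_cases hij : i ≤ j
        · rw [if_pos hij, hle] at h2
          exact ⟨fun _ => hij, fun _ => h2⟩
        · rw [if_neg hij, Formula.realize_not, hle] at h2
          exact ⟨fun hc => absurd hc h2, fun hc => absurd hc hij⟩
      · by_cases hij : i = j
        · rw [if_pos hij, heq] at h3
          exact ⟨fun _ => hij, fun _ => h3⟩
        · rw [if_neg hij, Formula.realize_not, heq] at h3
          exact ⟨fun hc => absurd hc h3, fun hc => absurd hc hij⟩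
    · rintro h ⟨i, j⟩
      obtain ⟨h2, h3⟩ := h i j
      dsimp only
      constructor
      · by_cases hij : i ≤ j
        · rw [if_pos hij, hle]
          exact h2.2 hij
        · rw [if_neg hij, Formula.realize_not, hle]
          exact fun hc => hij (h2.1 hc)
      · by_cases hij : i = j
        · rw [if_pos hij, heq]
          exact h3.2 hij
        · rw [if_neg hij, Formula.realize_not, heq]
          exact fun hc => hij (h3.1 hc)
  have hsur : ∀ (X : Type) [Language.order.Structure X] (a : A → X), sur.Realize a ↔
      ∀ x : X, ∃ i, x = a i := by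
    intro X _ a
    have h1 : sur.Realize a ↔ ∀ z : Unit → X, sur0.Realize (fun c => Sum.elim a z c) :=
      Formula.realize_iAlls
    have h2 : ∀ v : A ⊕ Unit → X, sur0.Realize v ↔ ∃ i, v (Sum.inr ()) = v (Sum.inl i) := by
      intro v
      refine BoundedFormula.realize_iSup.trans ?_
      apply exists_congr
      intro i
      exact Formula.realize_equal
    rw [h1]
    constructor
    · intro h x
      have := (h2 _).1 (h (fun _ => x))
      simpa using this
    · intro h z
      rw [h2]
      simpa using h (z ())
  have hχ : ∀ (X : Type) [Language.order.Structure X], X ⊨ χ ↔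
      ∃ a : A → X, (∀ i j, (Structure.RelMap (leSymb : Language.order.Relations 2) ![a i, a j] ↔
        i ≤ j) ∧ (a i = a j ↔ i = j)) ∧ ∀ x : X, ∃ i, x = a i := by
    intro X _
    have h1 : X ⊨ χ ↔ ∃ z : A → X, ((lit ⊓ sur).relabel (Sum.inr : A → Empty ⊕ A)).Realize
        (fun c => Sum.elim (default : Empty → X) z c) := Formula.realize_iExs
    rw [h1]
    apply exists_congr
    intro z
    rw [Formula.realize_relabel]
    have h2 : (fun c => Sum.elim (default : Empty → X) z c) ∘ (Sum.inr : A → Empty ⊕ A) = z := rfl
    rw [h2, Formula.realize_inf, hlit, hsur]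
  refine ⟨χ, ?_, ?_⟩
  · rw [hχ]
    refine ⟨id, fun i j => ⟨relMap_leSymb ![i, j], Iff.rfl⟩, fun x => ⟨x, rfl⟩⟩
  · intro N _ hN φ
    rw [hχ] at hN
    obtain ⟨a, h1, h2⟩ := hN
    have hinj : Function.Injective a := fun i j hij => (h1 i j).2.1 hij
    have hsj : Function.Surjective a := fun x => by
      obtain ⟨i, hi⟩ := h2 x
      exact ⟨i, hi.symm⟩
    let e : A ≃ N := Equiv.ofBijective a ⟨hinj, hsj⟩
    let g : A ≃[Language.order] N := ⟨e, fun f => (IsEmpty.false f).elim, by
      intro n S xs
      cases S
      change Structure.RelMap (leSymb : Language.order.Relations 2) (e ∘ xs) ↔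
        Structure.RelMap (leSymb : Language.order.Relations 2) xs
      refine Iff.trans ?_ (relMap_leSymb xs).symm
      have h3 : (e ∘ xs) = ![a (xs 0), a (xs 1)] := by
        funext l
        fin_cases l <;> rfl
      rw [h3]
      exact (h1 _ _).1⟩
    exact StrongHomClass.realize_sentence g φ

/-- **Theorem.** Every partial order whose theory is countably categorical and whose antichains
have bounded size has a finitely axiomatizable theory. -/
theorem main (M : Type) [PartialOrder M] [Language.order.Structure M]
    [Language.order.OrderedStructure M]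
    (hcat : Cardinal.Categorical Cardinal.aleph0.{0} (Language.order.completeTheory M))
    (hw : ∃ n : ℕ, ∀ s : Finset M, IsAntichain (· ≤ ·) (s : Set M) → s.card ≤ n) :
    ∃ T0 : Finset Language.order.Sentence,
      (↑T0 : Set Language.order.Sentence) ⊆ Language.order.completeTheory M ∧
      ∀ (N : Type) [Language.order.Structure N] [Nonempty N],
        N ⊨ (↑T0 : Language.order.Theory) → ∀ φ : Language.order.Sentence, M ⊨ φ ↔ N ⊨ φ := by
  classical
  rcases finite_or_infinite M with hfin | hinf
  · obtain ⟨χ, h1, h2⟩ := fa_finite M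
    refine ⟨{χ}, ?_, ?_⟩
    · intro φ hφ
      rw [Finset.coe_singleton, Set.mem_singleton_iff] at hφ
      rw [hφ]
      exact h1
    · intro N _ _ hN φ
      exact h2 N ((Theory.model_iff _).1 hN χ (by simp)) φ
  · obtain ⟨w, hw⟩ := hw
    obtain ⟨S, _, hS⟩ := exists_elementarySubstructure_card_eq Language.order (∅ : Set M)
      Cardinal.aleph0.{0} le_rfl (by simp) (by simp) (by
        rw [Cardinal.lift_id, Cardinal.lift_id]
        exact Cardinal.aleph0_le_mk M)
    rw [Cardinal.lift_id, Cardinal.lift_id] at hS
    have hSc : Countable S := Cardinal.mk_le_aleph0_iff.1 hS.le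
    have hSi : Infinite S := Cardinal.aleph0_le_mk_iff.1 hS.ge
    let _ : PartialOrder S := inferInstanceAs (PartialOrder {x // x ∈ S})
    have : Language.order.OrderedStructure S := ⟨fun x => relMap_leSymb (S.subtype ∘ x)⟩
    have hee : S ≅[Language.order] M := S.elementarilyEquivalent
    have hth : Language.order.completeTheory S = Language.order.completeTheory M := hee
    have hcat' : Q202.Ryll.OmegaCat Language.order S := by
      apply Q202.Ryll.omegaCat_of_categorical
      rw [hth]
      exact hcat
    have hwS : Wd S w := by
      intro s hs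
      have h3 : IsAntichain (· ≤ ·) ((s.map (Function.Embedding.subtype _) : Finset M) : Set M) := by
        intro a ha b hb hab hle
        rw [Finset.mem_coe, Finset.mem_map] at ha hb
        obtain ⟨a', ha', rfl⟩ := ha
        obtain ⟨b', hb', rfl⟩ := hb
        exact hs ha' hb' (fun hc => hab (by rw [hc])) hle
      have := hw _ h3
      rwa [Finset.card_map] at this
    -- finitely many orbits on pairs
    have hcov : ∃ n, Cov (⊤ : Setoid S) n := by
      obtain ⟨s, hsf, hs⟩ := Q202.Ryll.finite_orbits hcat' (Fin 2)
      refine ⟨(hsf.toFinset.image (fun v => (v 0, v 1))).card,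
        hsf.toFinset.image (fun v => (v 0, v 1)), le_rfl, ?_⟩
      intro x y
      obtain ⟨v, hv, g, hg⟩ := hs ![x, y]
      refine ⟨(v 0, v 1), Finset.mem_image_of_mem _ (hsf.mem_toFinset.2 hv), ?_⟩
      refine ⟨⟨g.toEquiv, ?_⟩, fun _ _ => Iff.rfl, hg 0, hg 1⟩
      intro p q
      have h8 := g.map_rel (leSymb : Language.order.Relations 2) ![p, q]
      rw [relMap_leSymb, relMap_leSymb] at h8
      exact h8
    obtain ⟨n, hn⟩ := hcov
    have : Finite (Quotient (⊤ : Setoid S)) :=
      finite_quotient_of_fun (⊤ : Setoid S) (fun _ => ()) (fun _ _ _ => trivial)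
    obtain ⟨k, hk⟩ := exists_star w n S (⊤ : Setoid S) hwS hn
    obtain ⟨T0, hT0, hT1⟩ := fa_of_star S hcat' hk
    refine ⟨T0, ?_, ?_⟩
    · rw [← hth]; exact hT0
    · intro N _ _ hN φ
      rw [← hT1 N hN φ]
      exact (hee.realize_sentence φ).symm

end Pool.Agent.H669.FA
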