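import Pool.Agent.H669.FA.Star

set_option autoImplicit false

/-!
# The finest invariant finite partition and its classes
-/

namespace Pool.Agent.H669.FA

universe u

variable {M : Type u} [PartialOrder M]

/-- `R` is the finest invariant equivalence relation with finitely many classes. -/
structure Ctx (r R : Setoid M) (F : Finset (M × M)) (w : ℕ) : Prop where
  wd : Wd M w
  cov : ∀ x y, ∃ q ∈ F, ∃ g, Inv r g ∧ g q.1 = x ∧ g q.2 = y
  fin : Finite (Quotient R)
  inv : ∀ g, Inv r g → Inv R g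
  fine : ∀ R' : Setoid M, Finite (Quotient R') → (∀ g, Inv r g → Inv R' g) → R ≤ R'
  le : R ≤ r

omit [PartialOrder M] in
theorem finite_quotient_of_fun {α : Type*} [Finite α] (R : Setoid M) (f : M → α)
    (h : ∀ x y, f x = f y → R x y) : Finite (Quotient R) := by
  apply Finite.of_injective (fun q : Quotient R => f q.out)
  intro q q' hqq'
  have := Quotient.sound (h _ _ hqq')
  simpa using this

theorem exists_ctx (r : Setoid M) [Finite (Quotient r)] {w n : ℕ} (hw : Wd M w) (hc : Cov r n) :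
    ∃ R F, F.card ≤ n ∧ Ctx r R F w := by
  classical
  obtain ⟨F, hFn, hF⟩ := hc
  let S : Set (Setoid M) := {R | Finite (Quotient R) ∧ ∀ g, Inv r g → Inv R g}
  have hS : ∃ m, ∃ R ∈ S, (F.filter (fun q => R q.1 q.2)).card = m :=
    ⟨_, r, ⟨inferInstance, fun g hg => hg⟩, rfl⟩
  obtain ⟨R, ⟨hRf, hRi⟩, hRm⟩ := Nat.find_spec hS
  have hmin : ∀ R' ∈ S, (F.filter (fun q => R q.1 q.2)).card ≤
      (F.filter (fun q => R' q.1 q.2)).card := by
    intro R' hR'
    rw [hRm]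
    exact Nat.find_min' hS ⟨R', hR', rfl⟩
  have hfine : ∀ R' : Setoid M, Finite (Quotient R') → (∀ g, Inv r g → Inv R' g) → R ≤ R' := by
    intro R' hR'f hR'i
    have hmem : R ⊓ R' ∈ S := by
      refine ⟨?_, ?_⟩
      · apply finite_quotient_of_fun (R ⊓ R')
          (fun x => ((Quotient.mk R x, Quotient.mk R' x) : Quotient R × Quotient R'))
        intro x y hxy
        simp only [Prod.mk.injEq] at hxy
        exact ⟨Quotient.exact hxy.1, Quotient.exact hxy.2⟩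
      · intro g hg x y
        have h1 := hRi g hg x y
        have h2 := hR'i g hg x y
        show (R (g x) (g y) ∧ R' (g x) (g y)) ↔ (R x y ∧ R' x y)
        rw [h1, h2]
    have hsub : F.filter (fun q => (R ⊓ R') q.1 q.2) ⊆ F.filter (fun q => R q.1 q.2) := by
      intro q hq
      rw [Finset.mem_filter] at hq ⊢
      exact ⟨hq.1, (hq.2 : R q.1 q.2 ∧ R' q.1 q.2).1⟩
    have heq := Finset.eq_of_subset_of_card_le hsub (hmin _ hmem)
    intro x y hxy
    obtain ⟨q, hq, g, hg, rfl, rfl⟩ := hF x y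
    have h1 : R q.1 q.2 := (hRi g hg _ _).1 hxy
    have h2 : q ∈ F.filter (fun q => (R ⊓ R') q.1 q.2) := by
      rw [heq, Finset.mem_filter]
      exact ⟨hq, h1⟩
    rw [Finset.mem_filter] at h2
    exact (hR'i g hg _ _).2 (h2.2 : R q.1 q.2 ∧ R' q.1 q.2).2
  exact ⟨R, F, hFn, hw, hF, hRf, hRi, hfine, hfine r inferInstance (fun g hg => hg)⟩

variable {r R : Setoid M} {F : Finset (M × M)} {w : ℕ}

/-- a class of `R` is not split by a member of a finite invariant family of sets. -/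
theorem Ctx.fam (h : Ctx r R F w) (𝒳 : Set (Set M)) (hf : 𝒳.Finite)
    (hg : ∀ g : M ≃o M, Inv r g → ∀ X ∈ 𝒳, (g '' X) ∈ 𝒳) :
    ∀ X ∈ 𝒳, ∀ x y, R x y → (x ∈ X ↔ y ∈ X) := by
  classical
  have := hf.to_subtype
  let R' : Setoid M := ⟨fun x y => ∀ X ∈ 𝒳, (x ∈ X ↔ y ∈ X),
    fun x X _ => Iff.rfl, fun h X hX => (h X hX).symm, fun h h' X hX => (h X hX).trans (h' X hX)⟩
  have h1 : Finite (Quotient R') := by
    apply finite_quotient_of_fun R' (fun x => (fun X : 𝒳 => (x ∈ X.1 : Prop)))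
    intro x y hxy X hX
    have := congrFun hxy ⟨X, hX⟩
    simp only [eq_iff_iff] at this
    exact this
  have h2 : ∀ g, Inv r g → Inv R' g := by
    have h3 : ∀ g : M ≃o M, Inv r g → ∀ x y, R' x y → R' (g x) (g y) := by
      intro g hgi x y hxy X hX
      have h4 := hxy _ (hg g.symm hgi.symm X hX)
      have h5 : ∀ z, z ∈ (g.symm '' X) ↔ g z ∈ X := by
        intro z
        constructor
        · rintro ⟨a, ha, rfl⟩
          rwa [g.apply_symm_apply]
        · intro hz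
          exact ⟨g z, hz, g.symm_apply_apply z⟩
      rw [h5, h5] at h4
      exact h4
    intro g hgi x y
    refine ⟨fun h => ?_, h3 g hgi x y⟩
    have := h3 g.symm hgi.symm _ _ h
    rwa [g.symm_apply_apply, g.symm_apply_apply] at this
  intro X hX x y hxy
  exact (h.fine R' h1 h2) hxy X hX

theorem Ctx.rel (h : Ctx r R F w) (φ : M → M → Prop)
    (hg : ∀ g, Inv r g → ∀ x y, φ (g x) (g y) ↔ φ x y)
    (hR : ∀ x y y', R y y' → (φ x y ↔ φ x y')) {x x' : M} (y : M) (hx : R x x') :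
    φ x y ↔ φ x' y := by
  classical
  have := h.fin
  have key := h.fam (Set.range (fun y => {x | φ x y})) (by
    apply (Set.finite_range (fun q : Quotient R => {x | φ x q.out})).subset
    rintro _ ⟨y, rfl⟩
    refine ⟨Quotient.mk R y, ?_⟩
    ext x
    exact hR x _ _ (Quotient.mk_out y)) (by
    rintro g hgi _ ⟨y, rfl⟩
    refine ⟨g y, ?_⟩
    ext x
    constructor
    · intro hx
      refine ⟨g.symm x, ?_, g.apply_symm_apply x⟩
      have := (hg g hgi (g.symm x) y)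
      rw [g.apply_symm_apply] at this
      exact this.1 hx
    · rintro ⟨z, hz, rfl⟩
      exact (hg g hgi z y).2 hz)
  exact key _ ⟨y, rfl⟩ x x' hx

/-- covered by finitely many principal downsets of the class of `p`. -/
def Small (R : Setoid M) (p : M) (X : Set M) : Prop :=
  ∃ U : Finset M, (∀ u ∈ U, R u p) ∧ ∀ x ∈ X, ∃ u ∈ U, x ≤ u

/-- downset of the class of `p`. -/
def Dn (R : Setoid M) (p : M) (X : Set M) : Prop :=
  (∀ x ∈ X, R x p) ∧ ∀ x ∈ X, ∀ y, R y p → y ≤ x → y ∈ X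

/-- large ideal of the class of `p`. -/
def Idl (R : Setoid M) (p : M) (Y : Set M) : Prop :=
  Dn R p Y ∧ (∀ a ∈ Y, ∀ b ∈ Y, ∃ c ∈ Y, a ≤ c ∧ b ≤ c) ∧ ¬ Small R p Y

def MinIdl (R : Setoid M) (p : M) (Y : Set M) : Prop :=
  Idl R p Y ∧ ∀ Y', Idl R p Y' → Y' ⊆ Y → Y' = Y

theorem Small.mono {p : M} {X Y : Set M} (h : Small R p Y) (hXY : X ⊆ Y) : Small R p X := by
  obtain ⟨U, h1, h2⟩ := h
  exact ⟨U, h1, fun x hx => h2 x (hXY hx)⟩

theorem Small.union {p : M} {X Y : Set M} (hX : Small R p X) (hY : Small R p Y) :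
    Small R p (X ∪ Y) := by
  classical
  obtain ⟨U, h1, h2⟩ := hX
  obtain ⟨V, h3, h4⟩ := hY
  refine ⟨U ∪ V, ?_, ?_⟩
  · intro u hu
    rcases Finset.mem_union.1 hu with hu | hu
    · exact h1 u hu
    · exact h3 u hu
  · rintro x (hx | hx)
    · obtain ⟨u, hu, hxu⟩ := h2 x hx
      exact ⟨u, Finset.mem_union_left _ hu, hxu⟩
    · obtain ⟨u, hu, hxu⟩ := h4 x hx
      exact ⟨u, Finset.mem_union_right _ hu, hxu⟩

theorem Small.class {p p' : M} (hp : R p p') {X : Set M} (h : Small R p X) : Small R p' X := by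
  obtain ⟨U, h1, h2⟩ := h
  exact ⟨U, fun u hu => R.trans (h1 u hu) hp, h2⟩

theorem Dn.class {p p' : M} (hp : R p p') {X : Set M} (h : Dn R p X) : Dn R p' X :=
  ⟨fun x hx => R.trans (h.1 x hx) hp, fun x hx y hy hyx => h.2 x hx y (R.trans hy (R.symm hp)) hyx⟩

theorem Idl.class {p p' : M} (hp : R p p') {X : Set M} (h : Idl R p X) : Idl R p' X :=
  ⟨h.1.class hp, h.2.1, fun hs => h.2.2 (hs.class (R.symm hp))⟩

theorem MinIdl.class {p p' : M} (hp : R p p') {X : Set M} (h : MinIdl R p X) : MinIdl R p' X :=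
  ⟨h.1.class hp, fun Y' hY' hs => h.2 Y' (hY'.class (R.symm hp)) hs⟩

theorem Idl.ub {p : M} {Y : Set M} (h : Idl R p Y) (W : Finset M) (hW : ∀ x ∈ W, x ∈ Y) :
    ∃ c ∈ Y, ∀ x ∈ W, x ≤ c := by
  classical
  induction W using Finset.induction_on with
  | empty =>
    have : Y.Nonempty := by
      by_contra hne
      rw [Set.not_nonempty_iff_eq_empty] at hne
      exact h.2.2 ⟨∅, by simp, by simp [hne]⟩
    obtain ⟨c, hc⟩ := this
    exact ⟨c, hc, by simp⟩
  | insert a W _ ih =>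
    obtain ⟨c, hc, hcW⟩ := ih (fun x hx => hW x (Finset.mem_insert_of_mem hx))
    obtain ⟨d, hd, h1, h2⟩ := h.2.1 a (hW a (Finset.mem_insert_self _ _)) c hc
    refine ⟨d, hd, ?_⟩
    intro x hx
    rcases Finset.mem_insert.1 hx with rfl | hx
    · exact h1
    · exact (hcW x hx).trans h2

theorem Idl.image {p : M} {Y : Set M} (h : Idl R p Y) {g : M ≃o M} (hg : Inv R g) :
    Idl R (g p) (g '' Y) := by
  classical
  refine ⟨⟨?_, ?_⟩, ?_, ?_⟩
  · rintro _ ⟨x, hx, rfl⟩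
    exact (hg _ _).2 (h.1.1 x hx)
  · rintro _ ⟨x, hx, rfl⟩ y hy hyx
    refine ⟨g.symm y, h.1.2 x hx _ ?_ ?_, g.apply_symm_apply y⟩
    · rw [← hg, g.apply_symm_apply]; exact hy
    · rw [g.symm_apply_le]; exact hyx
  · rintro _ ⟨a, ha, rfl⟩ _ ⟨b, hb, rfl⟩
    obtain ⟨c, hc, h1, h2⟩ := h.2.1 a ha b hb
    exact ⟨g c, ⟨c, hc, rfl⟩, g.le_iff_le.2 h1, g.le_iff_le.2 h2⟩
  · rintro ⟨U, hU1, hU2⟩
    apply h.2.2
    refine ⟨U.image g.symm, ?_, ?_⟩
    · intro u hu
      obtain ⟨v, hv, rfl⟩ := Finset.mem_image.1 hu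
      rw [← hg, g.apply_symm_apply]
      exact hU1 v hv
    · intro x hx
      obtain ⟨u, hu, hxu⟩ := hU2 (g x) ⟨x, hx, rfl⟩
      exact ⟨g.symm u, Finset.mem_image_of_mem _ hu, by rw [g.le_symm_apply]; exact hxu⟩

theorem MinIdl.image {p : M} {Y : Set M} (h : MinIdl R p Y) {g : M ≃o M} (hg : Inv R g) :
    MinIdl R (g p) (g '' Y) := by
  refine ⟨h.1.image hg, ?_⟩
  intro Y' hY' hs
  have h1 := hY'.image hg.symm
  rw [g.symm_apply_apply] at h1
  have h2 := h.2 _ h1 (by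
    rintro _ ⟨x, hx, rfl⟩
    obtain ⟨y, hy, hxy⟩ := hs hx
    rw [← hxy, g.symm_apply_apply]
    exact hy)
  rw [← h2, Set.image_image]
  simp

/-- the finite invariant family of minimal large ideals. -/
theorem Ctx.finite_minIdl (h : Ctx r R F w) : {Y : Set M | ∃ p, MinIdl R p Y}.Finite := by
  classical
  have := h.fin
  have h1 : {Y : Set M | ∃ p, MinIdl R p Y} = ⋃ q : Quotient R, {Y | MinIdl R q.out Y} := by
    ext Y
    simp only [Set.mem_ofPred_eq, Set.mem_iUnion]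
    constructor
    · rintro ⟨p, hp⟩
      exact ⟨Quotient.mk R p, hp.class (R.symm (Quotient.mk_out p))⟩
    · rintro ⟨q, hq⟩
      exact ⟨_, hq⟩
  rw [h1]
  apply Set.finite_iUnion
  intro q
  have : Nonempty M := ⟨q.out⟩
  by_contra hinf
  obtain ⟨T, hT, hTc⟩ := Set.Infinite.exists_subset_card_eq hinf (w + 1)
  have hx : ∀ Y ∈ T, ∃ x ∈ Y, ∀ Y' ∈ T, Y' ≠ Y → x ∉ Y' := by
    intro Y hY
    have hYm : MinIdl R q.out Y := hT hY
    have hwit : ∀ Y' ∈ T.erase Y, ∃ x ∈ Y, x ∉ Y' := by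
      intro Y' hY'
      have hY'm : MinIdl R q.out Y' := hT (Finset.mem_of_mem_erase hY')
      by_contra hcon
      push Not at hcon
      exact Finset.ne_of_mem_erase hY' (hY'm.2 Y hYm.1 hcon).symm
    choose! x hx1 hx2 using hwit
    obtain ⟨c, hc, hcW⟩ := hYm.1.ub ((T.erase Y).image x) (by
      intro z hz
      obtain ⟨Y', hY', rfl⟩ := Finset.mem_image.1 hz
      exact hx1 Y' hY')
    refine ⟨c, hc, ?_⟩
    intro Y' hY' hne hcY'
    have hY'e : Y' ∈ T.erase Y := Finset.mem_erase.2 ⟨hne, hY'⟩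
    have hY'm : MinIdl R q.out Y' := hT hY'
    exact hx2 Y' hY'e (hY'm.1.1.2 c hcY' _ (hYm.1.1.1 _ (hx1 Y' hY'e))
      (hcW _ (Finset.mem_image_of_mem _ hY'e)))
  choose! x hx1 hx2 using hx
  have hinj : Set.InjOn x (T : Set (Set M)) := by
    intro Y hY Y' hY' hxx
    by_contra hne
    exact hx2 Y hY Y' hY' (fun h => hne h.symm) (hxx ▸ hx1 Y' hY')
  have hac : IsAntichain (· ≤ ·) ((T.image x : Finset M) : Set M) := by
    intro a ha b hb hab hle
    rw [Finset.mem_coe, Finset.mem_image] at ha hb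
    obtain ⟨Y, hY, rfl⟩ := ha
    obtain ⟨Y', hY', rfl⟩ := hb
    have hne : Y' ≠ Y := fun h => hab (h ▸ rfl)
    have hYm : MinIdl R q.out Y := hT hY
    have hY'm : MinIdl R q.out Y' := hT hY'
    exact hx2 Y hY Y' hY' hne (hY'm.1.1.2 _ (hx1 Y' hY') _ (hYm.1.1.1 _ (hx1 Y hY)) hle)
  have := h.wd _ hac
  rw [Finset.card_image_of_injOn hinj, hTc] at this
  omega

theorem Ctx.minIdl_eq (h : Ctx r R F w) {p : M} {Y : Set M} (hY : MinIdl R p Y) :
    ∀ x, R x p → x ∈ Y := by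
  have key := h.fam {Y : Set M | ∃ p, MinIdl R p Y} h.finite_minIdl (by
    rintro g hg X ⟨p, hp⟩
    exact ⟨g p, hp.image (h.inv g hg)⟩) Y ⟨p, hY⟩
  obtain ⟨c, hc, _⟩ := hY.1.ub ∅ (by simp)
  intro x hx
  exact (key x c (R.trans hx (R.symm (hY.1.1.1 c hc)))).2 hc

/-- no maximal element in the class of `p`. -/
def NoMax (R : Setoid M) (p : M) : Prop := ∀ x, R x p → ∃ y, R y p ∧ x < y

theorem NoMax.not_small {p : M} (h : NoMax R p) : ¬ Small R p {x | R x p} := by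
  classical
  rintro ⟨U, hU1, hU2⟩
  have hne : U.Nonempty := by
    obtain ⟨u, hu, _⟩ := hU2 p (R.refl p)
    exact ⟨u, hu⟩
  obtain ⟨m, hm⟩ := U.exists_maximal hne
  obtain ⟨y, hy, hmy⟩ := h m (hU1 m hm.1)
  obtain ⟨u, hu, hyu⟩ := hU2 y hy
  exact absurd (hm.2 hu (hmy.le.trans hyu)) (fun hle => absurd (hle.trans_lt hmy) (not_lt_of_ge hyu))

theorem Ctx.noMax_of_lt (h : Ctx r R F w) {x y : M} (hxy : R x y) (hlt : x < y) : NoMax R y := by
  intro z hz
  have key := h.rel (fun a b => ∃ c, R c b ∧ a < c) (by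
    intro g hg a b
    constructor
    · rintro ⟨c, hc, hac⟩
      refine ⟨g.symm c, ?_, ?_⟩
      · rw [← h.inv g hg, g.apply_symm_apply]; exact hc
      · rw [g.lt_symm_apply]; exact hac
    · rintro ⟨c, hc, hac⟩
      exact ⟨g c, (h.inv g hg _ _).2 hc, g.lt_iff_lt.2 hac⟩) (by
    intro a b b' hb
    constructor
    · rintro ⟨c, hc, hac⟩; exact ⟨c, R.trans hc hb, hac⟩
    · rintro ⟨c, hc, hac⟩; exact ⟨c, R.trans hc (R.symm hb), hac⟩) y (R.trans hxy (R.symm hz))
  exact key.1 ⟨y, R.refl y, hlt⟩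

/-- The main lemma on classes: a class without maximal elements is directed, and its proper
downsets are bounded. -/
theorem Ctx.bounded_aux (h : Ctx r R F w) {p : M} (hp : NoMax R p) :
    (∀ X, Dn R p X → (∃ f, R f p ∧ f ∉ X) → Small R p X) ∧
    (∀ a, R a p → ∀ b, R b p → ∃ c, R c p ∧ a ≤ c ∧ b ≤ c) := by
  classical
  let P : ℕ → Prop := fun n => ∃ (X : Set M) (A : Finset M), Dn R p X ∧ ¬ Small R p X ∧
    (∀ a ∈ A, R a p) ∧ IsAntichain (· ≤ ·) (A : Set M) ∧ A.card = n ∧ ∀ a ∈ A, a ∉ X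
  have hP0 : P 0 := ⟨{x | R x p}, ∅, ⟨fun x hx => hx, fun x _ y hy _ => hy⟩, hp.not_small,
    by simp, by simp, by simp, by simp⟩
  have hex : ∃ n, P n ∧ ¬ P (n + 1) := by
    by_contra hcon
    push Not at hcon
    have hall : ∀ n, P n := fun n => Nat.rec hP0 (fun n ih => hcon n ih) n
    obtain ⟨X, A, _, _, _, hA, hAc, _⟩ := hall (w + 1)
    have := h.wd A hA
    omega
  obtain ⟨n, ⟨X, A, hXd, hXl, hAp, hAa, hAc, hAX⟩, hn⟩ := hex
  -- adding an element to the antichain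
  have hadd : ∀ (X' : Set M) (y : M), Dn R p X' → X' ⊆ X → R y p → y ∉ X' →
      (∀ f ∈ A, ¬ y ≤ f) → (∀ f ∈ A, ¬ f ≤ y) → Small R p X' := by
    intro X' y hX'd hX'X hyp hyX' h1 h2
    by_contra hl
    apply hn
    refine ⟨X', insert y A, hX'd, hl, ?_, ?_, ?_, ?_⟩
    · intro a ha
      rcases Finset.mem_insert.1 ha with rfl | ha
      · exact hyp
      · exact hAp a ha
    · rw [Finset.coe_insert]
      refine hAa.insert ?_ ?_
      · intro b hb _
        exact h2 b hb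
      · intro b hb _
        exact h1 b hb
    · rw [Finset.card_insert_of_notMem, hAc]
      intro hy
      exact h1 y hy le_rfl
    · intro a ha
      rcases Finset.mem_insert.1 ha with rfl | ha
      · exact hyX'
      · exact fun hc => hAX a ha (hX'X hc)
  let Y : Set M := {y | R y p ∧ Small R p {x | x ∈ X ∧ ¬ y ≤ x}}
  have hYd : Dn R p Y := by
    refine ⟨fun x hx => hx.1, ?_⟩
    intro x hx y hy hyx
    refine ⟨hy, hx.2.mono ?_⟩
    intro z hz
    exact ⟨hz.1, fun hxz => hz.2 (hyx.trans hxz)⟩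
  have ha : ∀ x ∈ X, (∀ f ∈ A, ¬ x ≤ f) → x ∈ Y := by
    intro x hx hxf
    refine ⟨hXd.1 x hx, ?_⟩
    apply hadd _ x _ (fun z hz => hz.1) (hXd.1 x hx)
    · intro hc; exact hc.2 le_rfl
    · exact hxf
    · intro f hf hfx
      exact hAX f hf (hXd.2 x hx f (hAp f hf) hfx)
    · refine ⟨fun z hz => hXd.1 z hz.1, ?_⟩
      intro z hz y hy hyz
      exact ⟨hXd.2 z hz.1 y hy hyz, fun hxy => hz.2 (hxy.trans hyz)⟩
  have hAs : Small R p {x | ∃ f ∈ A, x ≤ f} := ⟨A, hAp, fun x hx => hx⟩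
  have hYl : ¬ Small R p Y := by
    intro hs
    apply hXl
    apply (hs.union hAs).mono
    intro x hx
    by_cases hxf : ∃ f ∈ A, x ≤ f
    · exact Or.inr hxf
    · push Not at hxf
      exact Or.inl (ha x hx hxf)
  have hYA : ∀ f ∈ A, f ∉ Y := by
    intro f hf hfY
    apply hXl
    apply hfY.2.mono
    intro x hx
    exact ⟨hx, fun hfx => hAX f hf (hXd.2 x hx f (hAp f hf) hfx)⟩
  have hYdir : ∀ a ∈ Y, ∀ b ∈ Y, ∃ c ∈ Y, a ≤ c ∧ b ≤ c := by
    intro a ha' b hb'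
    by_contra hcon
    push Not at hcon
    apply hXl
    apply ((ha'.2.union hb'.2).union hAs).mono
    intro x hx
    by_cases h1 : a ≤ x
    · by_cases h2 : b ≤ x
      · by_cases h3 : ∃ f ∈ A, x ≤ f
        · exact Or.inr h3
        · push Not at h3
          exact absurd h2 (hcon x (ha x hx h3) h1)
      · exact Or.inl (Or.inr ⟨hx, h2⟩)
    · exact Or.inl (Or.inl ⟨hx, h1⟩)
  have hYX : ∀ y ∈ Y, y ∈ X := by
    intro y hy
    by_contra hyX
    apply hXl
    apply hy.2.mono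
    intro x hx
    exact ⟨hx, fun hyx => hyX (hXd.2 x hx y hy.1 hyx)⟩
  have hYI : Idl R p Y := ⟨hYd, hYdir, hYl⟩
  have hYm : MinIdl R p Y := by
    refine ⟨hYI, ?_⟩
    intro Y' hY' hs
    by_contra hne
    have : ∃ y ∈ Y, y ∉ Y' := by
      by_contra hcon
      push Not at hcon
      exact hne (Set.Subset.antisymm hs hcon)
    obtain ⟨y, hy, hyY'⟩ := this
    have : ∃ y2 ∈ Y, ∀ f ∈ A, ¬ y2 ≤ f := by
      by_contra hcon
      push Not at hcon
      exact hYl ⟨A, hAp, hcon⟩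
    obtain ⟨y2, hy2, hy2f⟩ := this
    obtain ⟨y3, hy3, h1, h2⟩ := hYdir y hy y2 hy2
    apply hY'.2.2
    apply hadd Y' y3 hY'.1 (fun z hz => hYX z (hs hz)) hy3.1
    · intro hc
      exact hyY' (hY'.1.2 y3 hc y hy.1 h1)
    · intro f hf hle
      exact hy2f f hf (h2.trans hle)
    · intro f hf hle
      exact hYA f hf (hYd.2 y3 hy3 f (hAp f hf) hle)
  have hYall := h.minIdl_eq hYm
  have hA0 : A = ∅ := by
    rw [Finset.eq_empty_iff_forall_notMem]
    intro a ha'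
    exact hYA a ha' (hYall a (hAp a ha'))
  have hn0 : n = 0 := by rw [← hAc, hA0]; rfl
  refine ⟨?_, ?_⟩
  · intro X' hX' ⟨f, hf, hfX⟩
    by_contra hl
    apply hn
    rw [hn0]
    refine ⟨X', {f}, hX', hl, ?_, by simp, by simp, ?_⟩
    · intro a ha'
      rw [Finset.mem_singleton] at ha'
      rw [ha']; exact hf
    · intro a ha'
      rw [Finset.mem_singleton] at ha'
      rw [ha']; exact hfX
  · intro a ha' b hb'
    obtain ⟨c, hc, h1, h2⟩ := hYdir a (hYall a ha') b (hYall b hb')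
    exact ⟨c, hc.1, h1, h2⟩

end Pool.Agent.H669.FA
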