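import Mathlib

set_option autoImplicit false

/-!
# Permutation-group preliminaries

`Nm r g`: the order automorphism `g` fixes every class of the equivalence relation `r`.
`Inv r g`: the order automorphism `g` preserves the relation `r`.
`Star r k`: every orbit (of the group of `g` with `Nm r g`) over a finite set `C` is an orbit over a
subset of `C` with at most `k` elements.
-/

namespace Pool.Agent.H669.FA

universe u

variable {M : Type u} [PartialOrder M]

/-- `g` fixes every class of `r`. -/
def Nm (r : Setoid M) (g : M ≃o M) : Prop := ∀ x, r (g x) x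

/-- `g` preserves the relation `r`. -/
def Inv (r : Setoid M) (g : M ≃o M) : Prop := ∀ x y, r (g x) (g y) ↔ r x y

/-- the group of `g` preserving `r` has at most `n` orbits on pairs. -/
def Cov (r : Setoid M) (n : ℕ) : Prop :=
  ∃ F : Finset (M × M), F.card ≤ n ∧ ∀ x y, ∃ q ∈ F, ∃ g, Inv r g ∧ g q.1 = x ∧ g q.2 = y

/-- all antichains have at most `w` elements. -/
def Wd (M : Type u) [PartialOrder M] (w : ℕ) : Prop :=
  ∀ s : Finset M, IsAntichain (· ≤ ·) (s : Set M) → s.card ≤ w

/-- the star property at a point. -/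
def StarAt (r : Setoid M) (k : ℕ) (b : M) : Prop :=
  ∀ C : Finset M, ∃ d ⊆ C, d.card ≤ k ∧ ∀ g, Nm r g → (∀ x ∈ d, g x = x) →
    ∃ h, Nm r h ∧ (∀ x ∈ C, h x = x) ∧ h b = g b

/-- the star property. -/
def Star (r : Setoid M) (k : ℕ) : Prop := ∀ b : M, StarAt r k b

theorem Nm.refl (r : Setoid M) : Nm r (OrderIso.refl M) := fun x => r.refl x

theorem Nm.trans {r : Setoid M} {g h : M ≃o M} (hg : Nm r g) (hh : Nm r h) :
    Nm r (g.trans h) := fun x => r.trans (hh (g x)) (hg x)

theorem Nm.symm {r : Setoid M} {g : M ≃o M} (hg : Nm r g) : Nm r g.symm := fun x => by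
  have := hg (g.symm x)
  rw [g.apply_symm_apply] at this
  exact r.symm this

theorem Inv.refl (r : Setoid M) : Inv r (OrderIso.refl M) := fun _ _ => Iff.rfl

theorem Inv.trans {r : Setoid M} {g h : M ≃o M} (hg : Inv r g) (hh : Inv r h) :
    Inv r (g.trans h) := fun x y => (hh (g x) (g y)).trans (hg x y)

theorem Inv.symm {r : Setoid M} {g : M ≃o M} (hg : Inv r g) : Inv r g.symm := fun x y => by
  have := hg (g.symm x) (g.symm y)
  rw [g.apply_symm_apply, g.apply_symm_apply] at this
  exact this.symm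

theorem Nm.inv {r : Setoid M} {g : M ≃o M} (hg : Nm r g) : Inv r g := fun x y =>
  ⟨fun h => r.trans (r.symm (hg x)) (r.trans h (hg y)),
   fun h => r.trans (hg x) (r.trans h (r.symm (hg y)))⟩

theorem Nm.mono {r r' : Setoid M} (h : r ≤ r') {g : M ≃o M} (hg : Nm r g) : Nm r' g :=
  fun x => h (hg x)

/-- conjugation invariance of the star property. -/
theorem StarAt.conj {r : Setoid M} {k : ℕ} {b : M} (h : StarAt r k b) {g : M ≃o M}
    (hg : Inv r g) : StarAt r k (g b) := by
  classical
  intro C
  obtain ⟨d, hd, hk, hd2⟩ := h (C.image g.symm)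
  refine ⟨d.image g, ?_, Finset.card_image_le.trans hk, ?_⟩
  · intro x hx
    obtain ⟨y, hy, rfl⟩ := Finset.mem_image.1 hx
    obtain ⟨z, hz, hzy⟩ := Finset.mem_image.1 (hd hy)
    rw [← hzy, g.apply_symm_apply]
    exact hz
  · intro f hf hfd
    obtain ⟨h', h1, h2, h3⟩ := hd2 ((g.trans f).trans g.symm)
      (by
        intro x
        have := (hg.symm (f (g x)) (g x)).2 (hf (g x))
        rw [g.symm_apply_apply] at this
        exact this)
      (by
        intro x hx
        have := hfd (g x) (Finset.mem_image_of_mem g hx)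
        simp [this])
    refine ⟨(g.symm.trans h').trans g, ?_, ?_, ?_⟩
    · intro x
      have := (hg (h' (g.symm x)) (g.symm x)).2 (h1 (g.symm x))
      rw [g.apply_symm_apply] at this
      exact this
    · intro x hx
      have := h2 (g.symm x) (Finset.mem_image_of_mem _ hx)
      simp [this]
    · simp only [OrderIso.trans_apply, OrderIso.symm_apply_apply] at h3 ⊢
      rw [h3, g.apply_symm_apply]

theorem StarAt.mono {r : Setoid M} {k k' : ℕ} (hk : k ≤ k') {b : M} (h : StarAt r k b) :
    StarAt r k' b := by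
  intro C
  obtain ⟨d, hd, h1, h2⟩ := h C
  exact ⟨d, hd, h1.trans hk, h2⟩

/-- preimage of a subset of an image, of the same size. -/
theorem exists_preimage_finset {ι : Type*} {α : Type*} [DecidableEq α] (u : ι → α)
    (J : Finset ι) (d : Finset α) (hd : d ⊆ J.image u) :
    ∃ D ⊆ J, D.image u = d ∧ D.card ≤ d.card := by
  classical
  have : ∀ x : d, ∃ j ∈ J, u j = x := fun x => Finset.mem_image.1 (hd x.2)
  choose f hf1 hf2 using this
  refine ⟨Finset.univ.image f, ?_, ?_, ?_⟩
  · intro j hj
    obtain ⟨x, _, rfl⟩ := Finset.mem_image.1 hj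
    exact hf1 x
  · ext x
    constructor
    · intro hx
      obtain ⟨j, hj, hjx⟩ := Finset.mem_image.1 hx
      obtain ⟨y, _, hy⟩ := Finset.mem_image.1 hj
      rw [← hjx, ← hy, hf2 y]
      exact y.2
    · intro hx
      exact Finset.mem_image.2 ⟨f ⟨x, hx⟩, Finset.mem_image_of_mem f (Finset.mem_univ _),
        hf2 ⟨x, hx⟩⟩
  · refine Finset.card_image_le.trans ?_
    simp

/-- orbits of tuples are determined by the `(k+1)`-subtuples. -/
theorem arity {r : Setoid M} {k : ℕ} (hs : Star r k) {ι : Type*} (u a : ι → M) (J : Finset ι)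
    (h : ∀ c ⊆ J, c.card ≤ k + 1 → ∃ g, Nm r g ∧ ∀ j ∈ c, g (u j) = a j) :
    ∃ g, Nm r g ∧ ∀ j ∈ J, g (u j) = a j := by
  classical
  induction J using Finset.induction_on with
  | empty => exact ⟨OrderIso.refl M, Nm.refl r, by simp⟩
  | insert j0 J0 hj0 ih =>
    obtain ⟨h0, h0n, h0a⟩ := ih (fun c hc hk => h c (hc.trans (Finset.subset_insert _ _)) hk)
    obtain ⟨d, hd, hk, hd2⟩ := hs (u j0) (J0.image u)
    obtain ⟨D, hDJ, hDd, hDc⟩ := exists_preimage_finset u J0 d hd
    obtain ⟨g, hgn, hga⟩ := h (insert j0 D) (Finset.insert_subset_insert _ hDJ)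
      ((Finset.card_insert_le _ _).trans (by omega))
    obtain ⟨h1, h1n, h1C, h1b⟩ := hd2 (g.trans h0.symm) (hgn.trans h0n.symm) (by
      intro x hx
      rw [← hDd] at hx
      obtain ⟨j, hj, rfl⟩ := Finset.mem_image.1 hx
      rw [OrderIso.trans_apply, hga j (Finset.mem_insert_of_mem hj), ← h0a j (hDJ hj),
        h0.symm_apply_apply])
    refine ⟨h1.trans h0, h1n.trans h0n, ?_⟩
    intro j hj
    rcases Finset.mem_insert.1 hj with rfl | hj
    · rw [OrderIso.trans_apply, h1b, OrderIso.trans_apply, h0.apply_symm_apply]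
      exact hga j (Finset.mem_insert_self _ _)
    · rw [OrderIso.trans_apply, h1C _ (Finset.mem_image_of_mem u hj)]
      exact h0a j hj

/-- the star property passes from the group fixing the classes of `R` to the group fixing the
classes of the coarser relation `r`, if `R` has finitely many classes. -/
theorem unname {r R : Setoid M} (hRr : R ≤ r) [Finite (Quotient R)]
    (hinv : ∀ g, Nm r g → Inv R g) {k : ℕ} (hs : Star R k) : ∃ k', Star r k' := by
  classical
  have := Fintype.ofFinite (Quotient R → Quotient R)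
  -- elements inducing `π` and fixing `c`
  let Fx : (Quotient R → Quotient R) → Finset M → Prop := fun π c =>
    ∃ t : M ≃o M, Nm r t ∧ (∀ x, (Quotient.mk R (t x)) = π (Quotient.mk R x)) ∧ ∀ x ∈ c, t x = x
  have key : ∀ (π : Quotient R → Quotient R) (C : Finset M),
      ∃ c ⊆ C, c.card ≤ k + 1 ∧ (Fx π c → Fx π C) := by
    intro π C
    by_contra hcon
    push Not at hcon
    -- all small subsets are fixed
    have hsm : ∀ c ⊆ C, c.card ≤ k + 1 → Fx π c := fun c hc hk => (hcon c hc hk).1
    have hC : ¬ Fx π C := (hcon ∅ (Finset.empty_subset _) (by simp)).2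
    obtain ⟨γ, hγn, hγπ, _⟩ := hsm ∅ (Finset.empty_subset _) (by simp)
    obtain ⟨h', hn', ha'⟩ := arity hs (id : M → M) γ C (by
      intro c hc hk
      obtain ⟨t, htn, htπ, htc⟩ := hsm c hc hk
      refine ⟨t.symm.trans γ, ?_, ?_⟩
      · intro x
        apply Quotient.exact
        show Quotient.mk R (γ (t.symm x)) = Quotient.mk R x
        rw [hγπ, ← htπ, t.apply_symm_apply]
      · intro x hx
        show γ (t.symm x) = γ x
        congr 1
        rw [OrderIso.symm_apply_eq]
        exact (htc x hx).symm)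
    apply hC
    refine ⟨γ.trans h'.symm, hγn.trans (hn'.mono hRr).symm, ?_, ?_⟩
    · intro x
      rw [← hγπ x]
      apply Quotient.sound
      exact hn'.symm (γ x)
    · intro x hx
      rw [OrderIso.trans_apply, ← ha' x hx]
      exact h'.symm_apply_apply x
  refine ⟨k + Fintype.card (Quotient R → Quotient R) * (k + 1), ?_⟩
  intro b C
  choose c hcC hck hcF using fun π => key π C
  obtain ⟨d0, hd0, hd0k, hd0s⟩ := hs b C
  refine ⟨d0 ∪ Finset.univ.biUnion c, ?_, ?_, ?_⟩
  · apply Finset.union_subset hd0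
    intro x hx
    obtain ⟨π, _, hπ⟩ := Finset.mem_biUnion.1 hx
    exact hcC π hπ
  · refine (Finset.card_union_le _ _).trans (Nat.add_le_add hd0k ?_)
    refine Finset.card_biUnion_le.trans ?_
    refine (Finset.sum_le_card_nsmul _ _ (k + 1) (fun π _ => hck π)).trans ?_
    simp
  · intro g hgn hgd
    have hgI := hinv g hgn
    let π : Quotient R → Quotient R := fun q => Quotient.mk R (g q.out)
    have hπ : ∀ x, Quotient.mk R (g x) = π (Quotient.mk R x) := by
      intro x
      apply Quotient.sound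
      exact (hgI _ _).2 (R.symm (Quotient.mk_out x))
    obtain ⟨t, htn, htπ, htC⟩ := hcF π ⟨g, hgn, hπ, fun x hx => hgd x
      (Finset.mem_union_right _ (Finset.mem_biUnion.2 ⟨π, Finset.mem_univ _, hx⟩))⟩
    obtain ⟨h', hn', hC', hb'⟩ := hd0s (g.trans t.symm) (by
        intro x
        apply Quotient.exact
        show Quotient.mk R (t.symm (g x)) = Quotient.mk R x
        have h1 : π (Quotient.mk R (t.symm (g x))) = π (Quotient.mk R x) := by
          rw [← htπ, t.apply_symm_apply, hπ]
        have h2 : Function.Injective π := by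
          intro q q' hqq'
          have : R (g q.out) (g q'.out) := Quotient.exact hqq'
          have := Quotient.sound ((hgI _ _).1 this)
          simpa using this
        exact h2 h1)
      (by
        intro x hx
        rw [OrderIso.trans_apply, hgd x (Finset.mem_union_left _ hx), OrderIso.symm_apply_eq]
        exact (htC x (hd0 hx)).symm)
    refine ⟨h'.trans t, (hn'.mono hRr).trans htn, ?_, ?_⟩
    · intro x hx
      rw [OrderIso.trans_apply, hC' x hx, htC x hx]
    · rw [OrderIso.trans_apply, hb', OrderIso.trans_apply, t.apply_symm_apply]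

/-- gluing a permutation supported on `I`. -/
theorem glue {R : Setoid M} (I : Set M)
    (hI : ∀ x ∈ I, ∀ x' ∈ I, R x x' → ∀ z, z ∉ I → ((x < z ↔ x' < z) ∧ (z < x ↔ z < x')))
    (f : Equiv.Perm M) (hf0 : ∀ z, z ∉ I → f z = z) (hf1 : ∀ z ∈ I, f z ∈ I)
    (hf2 : ∀ x ∈ I, ∀ y ∈ I, (f x ≤ f y ↔ x ≤ y)) (hf3 : ∀ x ∈ I, R (f x) x) :
    ∃ h : M ≃o M, Nm R h ∧ ∀ x, h x = f x := by
  refine ⟨⟨f, ?_⟩, ?_, fun x => rfl⟩
  · intro x y
    by_cases hx : x ∈ I <;> by_cases hy : y ∈ I
    · exact hf2 x hx y hy
    · rw [hf0 y hy]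
      have h1 : f x ≠ y := fun h => hy (h ▸ hf1 x hx)
      have h2 : x ≠ y := fun h => hy (h ▸ hx)
      have h3 := (hI (f x) (hf1 x hx) x hx (hf3 x hx) y hy).1
      constructor
      · intro h
        exact (h3.1 (lt_of_le_of_ne h h1)).le
      · intro h
        exact (h3.2 (lt_of_le_of_ne h h2)).le
    · rw [hf0 x hx]
      have h1 : x ≠ f y := fun h => hx (h ▸ hf1 y hy)
      have h2 : x ≠ y := fun h => hx (h ▸ hy)
      have h3 := (hI (f y) (hf1 y hy) y hy (hf3 y hy) x hx).2
      constructor
      · intro h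
        exact (h3.1 (lt_of_le_of_ne h h1)).le
      · intro h
        exact (h3.2 (lt_of_le_of_ne h h2)).le
    · rw [hf0 x hx, hf0 y hy]
  · intro x
    show R (f x) x
    by_cases hx : x ∈ I
    · exact hf3 x hx
    · rw [hf0 x hx]

end Pool.Agent.H669.FA
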